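import Mathlib

/-!
# Sieve and parity (MP_b07a8a_nt): the certificate checker

`ev l w` is the value at `w` of the polynomial with coefficients `l`. A row consists of a polynomial
`n`, of two lists `l1`, `l2` of (indices of) atoms with `n * ∏ l1 = ∏ l2`, and of two lists `m1`, `m2`
with `(n ^ 2 + n + 2) * ∏ m1 = ∏ m2`. A row is violated by `v : ℕ → Bool` if the sum of `v` over
`l1 ++ l2` is `true` and the sum over `m1 ++ m2` is `false`. The certificate is a list of clauses, each
derived from the previous ones and from the rows by unit propagation with hints.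
-/

set_option autoImplicit false

namespace Pool.Agent.SievePar.Core

/-! ### Polynomials as lists -/

def ev : List ℕ → ℕ → ℕ
  | [], _ => 0
  | a :: l, w => a + w * ev l w

def padd : List ℕ → List ℕ → List ℕ
  | [], q => q
  | a :: p, [] => a :: p
  | a :: p, b :: q => (a + b) :: padd p q

def psmul (c : ℕ) : List ℕ → List ℕ
  | [] => []
  | a :: p => (c * a) :: psmul c p

def pmul : List ℕ → List ℕ → List ℕ
  | [], _ => []
  | a :: p, q => padd (psmul a q) (0 :: pmul p q)

def pprod : List (List ℕ) → List ℕ
  | [] => [1]
  | p :: l => pmul p (pprod l)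

theorem ev_padd (p q : List ℕ) (w : ℕ) : ev (padd p q) w = ev p w + ev q w := by
  induction p generalizing q with
  | nil => simp [padd, ev]
  | cons a p ih =>
    cases q with
    | nil => simp [padd, ev]
    | cons b q =>
      simp only [padd, ev, ih]
      ring

theorem ev_psmul (c : ℕ) (p : List ℕ) (w : ℕ) : ev (psmul c p) w = c * ev p w := by
  induction p with
  | nil => simp [psmul, ev]
  | cons a p ih =>
    simp only [psmul, ev, ih]
    ring

theorem ev_pmul (p q : List ℕ) (w : ℕ) : ev (pmul p q) w = ev p w * ev q w := by
  induction p with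
  | nil => simp [pmul, ev]
  | cons a p ih =>
    simp only [pmul, ev_padd, ev_psmul, ev, ih]
    ring

theorem ev_pprod (l : List (List ℕ)) (w : ℕ) :
    ev (pprod l) w = (l.map fun p => ev p w).prod := by
  induction l with
  | nil => simp [pprod, ev]
  | cons p l ih => simp only [pprod, ev_pmul, ih, List.map_cons, List.prod_cons]

/-! ### Parities -/

/-- `Ω m` is odd. -/
noncomputable def par (m : ℕ) : Bool := decide (Odd (ArithmeticFunction.cardFactors m))

theorem par_mul {a b : ℕ} (ha : a ≠ 0) (hb : b ≠ 0) : par (a * b) = (par a ^^ par b) := by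
  unfold par
  rw [ArithmeticFunction.cardFactors_mul ha hb]
  by_cases h1 : Odd (ArithmeticFunction.cardFactors a) <;>
    by_cases h2 : Odd (ArithmeticFunction.cardFactors b) <;>
    simp [h1, h2, Nat.odd_add, Nat.not_odd_iff_even.mp, ← Nat.not_odd_iff_even]

theorem par_prime {p : ℕ} (hp : p.Prime) : par p = true := by
  unfold par
  rw [ArithmeticFunction.cardFactors_apply_prime hp]
  decide

theorem par_one : par 1 = false := by
  unfold par
  simp

/-- The sum of `v` over a list. -/
def xs (v : ℕ → Bool) : List ℕ → Bool
  | [] => false
  | a :: l => v a ^^ xs v l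

theorem xs_append (v : ℕ → Bool) (l m : List ℕ) : xs v (l ++ m) = (xs v l ^^ xs v m) := by
  induction l with
  | nil => simp [xs]
  | cons a l ih => simp [xs, ih]

/-! ### Rows -/

/-- `n * ∏ l1 = ∏ l2`, `(n ^ 2 + n + 2) * ∏ m1 = ∏ m2`; `p` and `q` are the lists of the atoms which
occur an odd number of times in `l1 ++ l2` and in `m1 ++ m2`. -/
structure Row where
  n : List ℕ
  l1 : List ℕ
  l2 : List ℕ
  m1 : List ℕ
  m2 : List ℕ
  p : List ℕ
  q : List ℕ

/-- Adds `a` to a list, or removes it if it is present. -/
def tog (a : ℕ) : List ℕ → List ℕ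
  | [] => [a]
  | b :: l => if a = b then l else b :: tog a l

def canc : List ℕ → List ℕ
  | [] => []
  | a :: l => tog a (canc l)

theorem xs_tog (v : ℕ → Bool) (a : ℕ) (l : List ℕ) : xs v (tog a l) = (v a ^^ xs v l) := by
  induction l with
  | nil => simp [tog, xs]
  | cons b l ih =>
    simp only [tog]
    split_ifs with h
    · subst h
      simp [xs]
    · simp only [xs, ih]
      cases v a <;> cases v b <;> simp

theorem xs_canc (v : ℕ → Bool) (l : List ℕ) : xs v (canc l) = xs v l := by
  induction l with
  | nil => rfl
  | cons a l ih => simp only [canc, xs_tog, xs, ih]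

/-- The `a`-th atom. -/
def atom (A : List (List ℕ)) (a : ℕ) : List ℕ := A.getD a [1]

/-- The polynomial identities of a row. -/
def rowOk (A : List (List ℕ)) (r : Row) : Bool :=
  (pmul r.n (pprod (r.l1.map (atom A))) == pprod (r.l2.map (atom A))) &&
  (pmul (padd (pmul r.n r.n) (padd r.n [2])) (pprod (r.m1.map (atom A))) ==
    pprod (r.m2.map (atom A))) &&
  (r.p == canc (r.l1 ++ r.l2)) && (r.q == canc (r.m1 ++ r.m2)) &&
  decide (0 < r.n.headD 0)

/-- The row is violated. -/
def viol (v : ℕ → Bool) (r : Row) : Prop := xs v r.p = true ∧ xs v r.q = false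

/-! ### Partial assignments and unit propagation -/

/-- A partial assignment: the bits of `t` are the true variables, the bits of `f` the false ones. -/
structure PA where
  t : ℕ
  f : ℕ

def look (σ : PA) (x : ℕ) : Option Bool :=
  if σ.t.testBit x then some true else if σ.f.testBit x then some false else none

def put (σ : PA) (x : ℕ) (b : Bool) : PA :=
  if b then ⟨σ.t ||| 2 ^ x, σ.f⟩ else ⟨σ.t, σ.f ||| 2 ^ x⟩

/-- `v` extends `σ`. -/
def Ext (v : ℕ → Bool) (σ : PA) : Prop :=
  (∀ x, σ.t.testBit x = true → v x = true) ∧ ∀ x, σ.f.testBit x = true → v x = false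

/-- The sum over a list of assigned variables (`none` if one is not assigned). -/
def xo (σ : PA) : List ℕ → Option Bool
  | [] => some false
  | a :: l =>
    match look σ a, xo σ l with
    | some b, some c => some (b ^^ c)
    | _, _ => none

/-- The first variable of the list which is not assigned. -/
def firstFree (σ : PA) : List ℕ → Option ℕ
  | [] => none
  | a :: l =>
    match look σ a with
    | none => some a
    | some _ => firstFree σ l

/-- `true` if all variables are assigned and the row is violated. -/
def violP (σ : PA) (r : Row) : Bool :=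
  match xo σ r.p, xo σ r.q with
  | some true, some false => true
  | _, _ => false

/-- One step: `none` = failure, `some none` = conflict, `some (some σ')` = new assignment. -/
def stepRow (σ : PA) (r : Row) : Option (Option PA) :=
  match firstFree σ (r.p ++ r.q) with
  | none => if violP σ r then some none else none
  | some x =>
    if violP (put σ x true) r then some (some (put σ x false))
    else if violP (put σ x false) r then some (some (put σ x true))
    else none

/-- Clauses: lists of literals `(x, b)`, meaning `v x = b`. -/
def holds (v : ℕ → Bool) (c : List (ℕ × Bool)) : Prop := ∃ l ∈ c, v l.1 = l.2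

/-- Removes the falsified literals; `none` if a literal is true. -/
def rest (σ : PA) : List (ℕ × Bool) → List (ℕ × Bool)
  | [] => []
  | l :: c =>
    match look σ l.1 with
    | none => l :: rest σ c
    | some b => if b = l.2 then l :: rest σ c else rest σ c

def stepClause (σ : PA) (c : List (ℕ × Bool)) : Option (Option PA) :=
  match rest σ c with
  | [] => some none
  | [l] => some (some (put σ l.1 l.2))
  | _ => none

/-- A hint: `(false, i)` = row `i`, `(true, i)` = clause `i`. -/
def run (rows : List Row) (cl : List (List (ℕ × Bool))) : PA → List (Bool × ℕ) → Bool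
  | _, [] => false
  | σ, (b, i) :: h =>
    match (if b then stepClause σ (cl.getD i [(0, true), (0, false)])
      else stepRow σ (rows.getD i ⟨[], [], [], [], [], [], []⟩)) with
    | none => false
    | some none => true
    | some (some σ') => run rows cl σ' h

/-- The negation of a clause as a partial assignment. -/
def neg (σ : PA) : List (ℕ × Bool) → PA
  | [] => σ
  | l :: c => neg (put σ l.1 (!l.2)) c

/-- The certificate: clauses with hints; new clauses are added in front. -/
def cert (rows : List Row) (σ₀ : PA) : List (List (ℕ × Bool)) →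
    List (List (ℕ × Bool) × List (Bool × ℕ)) → Bool
  | cl, [] => cl.head? == some []
  | cl, (c, h) :: k => run rows cl (neg σ₀ c) h && cert rows σ₀ (c :: cl) k

/-! ### Soundness -/

theorem look_some {v : ℕ → Bool} {σ : PA} (h : Ext v σ) {x : ℕ} {b : Bool}
    (hb : look σ x = some b) : v x = b := by
  unfold look at hb
  split_ifs at hb with h1 h2
  · rw [← Option.some.inj hb]
    exact h.1 x h1
  · rw [← Option.some.inj hb]
    exact h.2 x h2

theorem ext_put {v : ℕ → Bool} {σ : PA} (h : Ext v σ) {x : ℕ} {b : Bool} (hb : v x = b) :
    Ext v (put σ x b) := by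
  unfold put
  cases b
  · simp only [Bool.false_eq_true, if_false]
    refine ⟨h.1, fun y hy => ?_⟩
    rw [Nat.testBit_or, Bool.or_eq_true] at hy
    rcases hy with hy | hy
    · exact h.2 y hy
    · rw [Nat.testBit_two_pow] at hy
      have : x = y := by simpa using hy
      rw [← this]
      exact hb
  · simp only [if_true]
    refine ⟨fun y hy => ?_, h.2⟩
    rw [Nat.testBit_or, Bool.or_eq_true] at hy
    rcases hy with hy | hy
    · exact h.1 y hy
    · rw [Nat.testBit_two_pow] at hy
      have : x = y := by simpa using hy
      rw [← this]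
      exact hb

theorem xo_some {v : ℕ → Bool} {σ : PA} (h : Ext v σ) {l : List ℕ} {b : Bool}
    (hb : xo σ l = some b) : xs v l = b := by
  induction l generalizing b with
  | nil =>
    simp only [xo] at hb
    simp only [xs]
    exact Option.some.inj hb
  | cons a l ih =>
    simp only [xo] at hb
    split at hb
    · rename_i b1 c1 h1 h2
      simp only [xs]
      rw [look_some h h1, ih h2]
      exact Option.some.inj hb
    · exact absurd hb (by simp)

theorem violP_viol {v : ℕ → Bool} {σ : PA} (h : Ext v σ) {r : Row} (hv : violP σ r = true) :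
    viol v r := by
  unfold violP at hv
  split at hv
  · rename_i h1 h2
    exact ⟨xo_some h h1, xo_some h h2⟩
  · exact absurd hv (by simp)

theorem stepRow_conflict {v : ℕ → Bool} {σ : PA} (h : Ext v σ) {r : Row}
    (hs : stepRow σ r = some none) : viol v r := by
  unfold stepRow at hs
  split at hs
  · split_ifs at hs with h1
    exact violP_viol h h1
  · split_ifs at hs <;> exact absurd (Option.some.inj hs) (by simp)

theorem stepRow_ext {v : ℕ → Bool} {σ σ' : PA} (h : Ext v σ) {r : Row} (hr : ¬ viol v r)
    (hs : stepRow σ r = some (some σ')) : Ext v σ' := by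
  unfold stepRow at hs
  split at hs
  · split_ifs at hs
    exact absurd (Option.some.inj hs) (by simp)
  · rename_i x hx
    split_ifs at hs with h1 h2
    · rw [← Option.some.inj (Option.some.inj hs)]
      refine ext_put h ?_
      by_contra hne
      have hb : v x = true := by
        cases hv : v x
        · exact absurd hv hne
        · rfl
      exact hr (violP_viol (ext_put h hb) h1)
    · rw [← Option.some.inj (Option.some.inj hs)]
      refine ext_put h ?_
      by_contra hne
      have hb : v x = false := by
        cases hv : v x
        · rfl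
        · exact absurd hv hne
      exact hr (violP_viol (ext_put h hb) h2)

theorem holds_rest {v : ℕ → Bool} {σ : PA} (h : Ext v σ) {c : List (ℕ × Bool)}
    (hc : holds v c) : holds v (rest σ c) := by
  induction c with
  | nil => exact hc
  | cons l c ih =>
    obtain ⟨l', hl', hv⟩ := hc
    simp only [rest]
    rcases List.mem_cons.mp hl' with h1 | h1
    · subst h1
      split
      · exact ⟨l', List.mem_cons_self, hv⟩
      · rename_i b hb
        have hb2 := look_some h hb
        rw [if_pos (hb2.symm.trans hv)]
        exact ⟨l', List.mem_cons_self, hv⟩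
    · have hr := ih ⟨l', h1, hv⟩
      obtain ⟨l2, hl2, hv2⟩ := hr
      split
      · exact ⟨l2, List.mem_cons_of_mem _ hl2, hv2⟩
      · split_ifs
        · exact ⟨l2, List.mem_cons_of_mem _ hl2, hv2⟩
        · exact ⟨l2, hl2, hv2⟩

theorem stepClause_conflict {v : ℕ → Bool} {σ : PA} (h : Ext v σ) {c : List (ℕ × Bool)}
    (hs : stepClause σ c = some none) : ¬ holds v c := by
  intro hc
  have hr := holds_rest h hc
  unfold stepClause at hs
  split at hs
  · rename_i h1
    rw [h1] at hr
    obtain ⟨l, hl, _⟩ := hr
    exact absurd hl (by simp)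
  · exact absurd hs (by simp)
  · exact absurd hs (by simp)

theorem stepClause_ext {v : ℕ → Bool} {σ σ' : PA} (h : Ext v σ) {c : List (ℕ × Bool)}
    (hc : holds v c) (hs : stepClause σ c = some (some σ')) : Ext v σ' := by
  have hr := holds_rest h hc
  unfold stepClause at hs
  split at hs
  · exact absurd hs (by simp)
  · rename_i l h1
    rw [h1] at hr
    rw [← Option.some.inj (Option.some.inj hs)]
    obtain ⟨l', hl', hv⟩ := hr
    rw [List.mem_singleton] at hl'
    rw [← hl']
    exact ext_put h hv
  · exact absurd hs (by simp)

theorem not_viol_getD {v : ℕ → Bool} {rows : List Row} (hr : ∀ r ∈ rows, ¬ viol v r) (i : ℕ) :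
    ¬ viol v (rows.getD i ⟨[], [], [], [], [], [], []⟩) := by
  by_cases h : i < rows.length
  · rw [List.getD_eq_getElem _ _ h]
    exact hr _ (List.getElem_mem h)
  · rw [List.getD_eq_default _ _ (not_lt.mp h)]
    rintro ⟨h1, _⟩
    simp [xs] at h1

theorem holds_getD {v : ℕ → Bool} {cl : List (List (ℕ × Bool))} (hr : ∀ c ∈ cl, holds v c)
    (i : ℕ) : holds v (cl.getD i [(0, true), (0, false)]) := by
  by_cases h : i < cl.length
  · rw [List.getD_eq_getElem _ _ h]
    exact hr _ (List.getElem_mem h)
  · rw [List.getD_eq_default _ _ (not_lt.mp h)]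
    cases h0 : v 0
    · exact ⟨(0, false), by simp, h0⟩
    · exact ⟨(0, true), by simp, h0⟩

theorem run_sound {v : ℕ → Bool} {rows : List Row} (hr : ∀ r ∈ rows, ¬ viol v r)
    {cl : List (List (ℕ × Bool))} (hc : ∀ c ∈ cl, holds v c) (h : List (Bool × ℕ)) (σ : PA)
    (hσ : Ext v σ) : run rows cl σ h = true → False := by
  induction h generalizing σ with
  | nil => intro h; simp [run] at h
  | cons x h ih =>
    obtain ⟨b, i⟩ := x
    intro hrun
    simp only [run] at hrun
    split at hrun
    · exact absurd hrun (by simp)
    · rename_i h1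
      cases b
      · simp only [Bool.false_eq_true, if_false] at h1
        exact not_viol_getD hr i (stepRow_conflict hσ h1)
      · simp only [if_true] at h1
        exact stepClause_conflict hσ h1 (holds_getD hc i)
    · rename_i σ' h1
      refine ih σ' ?_ hrun
      cases b
      · simp only [Bool.false_eq_true, if_false] at h1
        exact stepRow_ext hσ (not_viol_getD hr i) h1
      · simp only [if_true] at h1
        exact stepClause_ext hσ (holds_getD hc i) h1

theorem ext_neg {v : ℕ → Bool} (c : List (ℕ × Bool)) (σ : PA) (hσ : Ext v σ)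
    (hc : ¬ holds v c) : Ext v (neg σ c) := by
  induction c generalizing σ with
  | nil => exact hσ
  | cons l c ih =>
    simp only [neg]
    refine ih _ (ext_put hσ ?_) fun h => ?_
    · have hne : v l.1 ≠ l.2 := fun h => hc ⟨l, List.mem_cons_self, h⟩
      cases h1 : v l.1 <;> cases h2 : l.2 <;> simp_all
    · obtain ⟨l', hl', hv⟩ := h
      exact hc ⟨l', List.mem_cons_of_mem _ hl', hv⟩

theorem cert_sound {v : ℕ → Bool} {rows : List Row} (hr : ∀ r ∈ rows, ¬ viol v r) {σ₀ : PA}
    (hσ : Ext v σ₀) (k : List (List (ℕ × Bool) × List (Bool × ℕ)))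
    (cl : List (List (ℕ × Bool))) (hc : ∀ c ∈ cl, holds v c) :
    cert rows σ₀ cl k = true → False := by
  induction k generalizing cl with
  | nil =>
    intro h
    simp only [cert, beq_iff_eq] at h
    cases cl with
    | nil => simp at h
    | cons c cl =>
      simp only [List.head?_cons, Option.some.injEq] at h
      obtain ⟨l, hl, _⟩ := hc c List.mem_cons_self
      rw [h] at hl
      exact absurd hl (by simp)
  | cons x k ih =>
    obtain ⟨c, hh⟩ := x
    intro h
    simp only [cert, Bool.and_eq_true] at h
    refine ih (c :: cl) ?_ h.2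
    intro d hd
    rcases List.mem_cons.mp hd with h1 | h1
    · rw [h1]
      by_contra hcon
      exact run_sound hr hc hh _ (ext_neg c σ₀ hσ hcon) h.1
    · exact hc d h1

end Pool.Agent.SievePar.Core
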