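import Pool.Agent.Lib.MP_b07a8a_nt.Core.Data

/-!
# Sieve and parity (MP_b07a8a_nt): the combinatorial core

For every `w` one of the rows `n = n_i(w)` is such that `n` and `n (n + 1) / 2 + 1` both have an odd
number of prime factors.
-/

set_option autoImplicit false

namespace Pool.Agent.SievePar.Core

open ArithmeticFunction

theorem rows_ok : rows.all (rowOk atoms) = true := by decide +kernel

theorem atoms_pos : atoms.all (fun p => decide (0 < p.headD 0)) = true := by decide +kernel

theorem cert_ok : cert rows ⟨15, 0⟩ [] lem = true := by decide +kernel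

theorem ev_pos {p : List ℕ} (hp : 0 < p.headD 0) (w : ℕ) : 0 < ev p w := by
  cases p with
  | nil => simp at hp
  | cons a p =>
    simp only [List.headD_cons] at hp
    simp only [ev]
    omega

theorem atom_pos (a w : ℕ) : 0 < ev (atom atoms a) w := by
  refine ev_pos ?_ w
  unfold atom
  by_cases h : a < atoms.length
  · rw [List.getD_eq_getElem _ _ h]
    have := List.all_eq_true.mp atoms_pos _ (List.getElem_mem h)
    simpa using this
  · rw [List.getD_eq_default _ _ (not_lt.mp h)]
    simp

theorem par_prod {w : ℕ} (l : List ℕ) :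
    par ((l.map (atom atoms)).map fun p => ev p w).prod =
      xs (fun a => par (ev (atom atoms a) w)) l := by
  induction l with
  | nil => simp [xs, par_one]
  | cons a l ih =>
    simp only [List.map_cons, List.prod_cons, xs]
    rw [par_mul (atom_pos a w).ne', ih]
    refine (List.prod_ne_zero ?_)
    intro h
    simp only [List.map_map, List.mem_map, Function.comp] at h
    obtain ⟨b, _, hb⟩ := h
    exact (atom_pos b w).ne' hb

theorem prod_ne (w : ℕ) (l : List ℕ) : ((l.map (atom atoms)).map fun p => ev p w).prod ≠ 0 := by
  refine (List.prod_ne_zero ?_)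
  intro h
  simp only [List.map_map, List.mem_map, Function.comp] at h
  obtain ⟨b, _, hb⟩ := h
  exact (atom_pos b w).ne' hb

/-- What the rows say. -/
theorem row_spec {r : Row} (hr : r ∈ rows) (w : ℕ) : 0 < ev r.n w ∧
    par (ev r.n w) = xs (fun a => par (ev (atom atoms a) w)) r.p ∧
    par (ev r.n w ^ 2 + ev r.n w + 2) = xs (fun a => par (ev (atom atoms a) w)) r.q := by
  have h := List.all_eq_true.mp rows_ok r hr
  simp only [rowOk, Bool.and_eq_true, beq_iff_eq, decide_eq_true_eq] at h
  obtain ⟨⟨⟨⟨h1, h2⟩, h3⟩, h4⟩, h5⟩ := h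
  have hpos := ev_pos h5 w
  refine ⟨hpos, ?_, ?_⟩
  · have e := congrArg (fun p => ev p w) h1
    simp only [ev_pmul, ev_pprod] at e
    have e2 := congrArg par e
    rw [par_mul hpos.ne' (prod_ne w _), par_prod, par_prod] at e2
    rw [h3, xs_canc, xs_append]
    rw [← e2]
    cases par (ev r.n w) <;> simp
  · have e := congrArg (fun p => ev p w) h2
    simp only [ev_pmul, ev_pprod, ev_padd, ev] at e
    have hE : ev r.n w * ev r.n w + (ev r.n w + (2 + w * 0)) = ev r.n w ^ 2 + ev r.n w + 2 := by ring
    rw [hE] at e
    have e2 := congrArg par e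
    rw [par_mul (by positivity) (prod_ne w _), par_prod, par_prod] at e2
    rw [h4, xs_canc, xs_append]
    rw [← e2]
    cases par (ev r.n w ^ 2 + ev r.n w + 2) <;> simp

theorem two_mul_f (n : ℕ) : n ^ 2 + n + 2 = 2 * (n * (n + 1) / 2 + 1) := by
  have h : n * (n + 1) / 2 * 2 = n * (n + 1) := Nat.div_mul_cancel (Nat.even_mul_succ_self n).two_dvd
  nlinarith

/-- For every `w`, one of the `n = n_i(w)` is such that `n` and `n (n + 1) / 2 + 1` both have an odd
number of prime factors. -/
theorem core (w : ℕ) : ∃ r ∈ rows, Odd (cardFactors (ev r.n w)) ∧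
    Odd (cardFactors (ev r.n w * (ev r.n w + 1) / 2 + 1)) := by
  by_contra hcon
  push Not at hcon
  refine cert_sound (v := fun a => par (ev (atom atoms a) w)) (rows := rows) ?_ (σ₀ := ⟨15, 0⟩)
    ?_ lem [] (by simp) cert_ok
  · rintro r hr ⟨h1, h2⟩
    obtain ⟨h0, h3, h4⟩ := row_spec hr w
    rw [← h3] at h1
    rw [← h4, two_mul_f, par_mul (by norm_num) (by omega), par_prime Nat.prime_two] at h2
    have h5 : par (ev r.n w * (ev r.n w + 1) / 2 + 1) = true := by
      cases h : par (ev r.n w * (ev r.n w + 1) / 2 + 1)
      · rw [h] at h2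
        simp at h2
      · rfl
    exact hcon r hr (by simpa [par] using h1) (by simpa [par] using h5)
  · constructor
    · intro x hx
      have hlt : x < 4 := by
        by_contra hge
        have : Nat.testBit 15 x = false := by
          apply Nat.testBit_eq_false_of_lt
          calc 15 < 2 ^ 4 := by norm_num
            _ ≤ 2 ^ x := Nat.pow_le_pow_right (by norm_num) (not_lt.mp hge)
        rw [this] at hx
        exact absurd hx (by simp)
      interval_cases x
      · exact par_prime (by norm_num [atom, atoms, atoms0, ev])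
      · exact par_prime (by norm_num [atom, atoms, atoms0, ev])
      · exact par_prime (by norm_num [atom, atoms, atoms0, ev])
      · exact par_prime (by norm_num [atom, atoms, atoms0, ev])
    · intro x hx
      simp at hx

end Pool.Agent.SievePar.Core
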