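import Pool.Agent.Lib.MP_b07a8a_nt.Core.Chk

/-!
# Sieve and parity (MP_b07a8a_nt): the data

Everything is a polynomial in `w`, where `t = 14400 + 20160 * w`. The rows come from the identities
`f(x (x + 1) / 2) = f(x - 1) f(x + 1) / 2` and `f(h(x)) = 2 f(x) f(x + k) / k ^ 2`
(`f(n) = n (n + 1) / 2 + 1`, `h(x) = (x + s) (x + 2 / s) / k`, `k = s + 2 / s - 1`) and from
factorisations over `ℚ`, for linear and quadratic `n` in `t`.
-/

set_option autoImplicit false

namespace Pool.Agent.SievePar.Core

/-- The atoms; the first 4 are prime constants. -/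
def atoms0 : List (List ℕ) :=
  [[2], [3], [5], [7], [14392, 20160], [14394, 20160], [14398, 20160], [14400, 20160],
   [14402, 20160], [14404, 20160], [14406, 20160], [14408, 20160], [14409, 20160], [14410, 20160],
   [14412, 20160], [14413, 20160], [14414, 20160], [14415, 20160], [14416, 20160], [14418, 20160],
   [14420, 20160], [14422, 20160], [14424, 20160], [14425, 20160], [14426, 20160], [14427, 20160],
   [14428, 20160], [14430, 20160], [14432, 20160], [14433, 20160], [14434, 20160], [14435, 20160],
   [14436, 20160], [14438, 20160], [14440, 20160], [14441, 20160], [14442, 20160], [14444, 20160],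
   [14448, 20160], [14450, 20160], [14452, 20160], [207129692, 580285440, 406425600],
   [207129776, 580285440, 406425600], [207244928, 580446720, 406425600],
   [207331208, 580567680, 406425600], [207331264, 580567680, 406425600],
   [207331544, 580567680, 406425600], [207446416, 580728960, 406425600],
   [207446472, 580728960, 406425600], [207475328, 580769280, 406425600]]

/-- Atoms. -/
def atoms1 : List (List ℕ) :=
  [[207489762, 580789440, 406425600], [207504200, 580809600, 406425600],
   [207532864, 580849920, 406425600], [207533088, 580849920, 406425600],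
   [207561656, 580890240, 406425600], [207576450, 580910400, 406425600],
   [207619344, 580970880, 406425600], [207633776, 580991040, 406425600],
   [207648128, 581011200, 406425600], [207662526, 581031360, 406425600],
   [207676928, 581051520, 406425600], [207705856, 581091840, 406425600],
   [207720158, 581112000, 406425600], [207734576, 581132160, 406425600],
   [207748984, 581152320, 406425600], [207748998, 581152320, 406425600],
   [207763424, 581172480, 406425600], [207777812, 581192640, 406425600],
   [207792232, 581212800, 406425600], [207792288, 581212800, 406425600],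
   [207792400, 581212800, 406425600], [207806642, 581232960, 406425600],
   [207835474, 581273280, 406425600], [207835488, 581273280, 406425600],
   [207849896, 581293440, 406425600], [207864350, 581313600, 406425600],
   [207878752, 581333760, 406425600], [207878976, 581333760, 406425600],
   [207907568, 581374080, 406425600], [207921996, 581394240, 406425600],
   [207936407, 581414400, 406425600], [207936428, 581414400, 406425600],
   [207936512, 581414400, 406425600], [207965248, 581454720, 406425600],
   [207965304, 581454720, 406425600], [207994112, 581495040, 406425600],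
   [208008550, 581515200, 406425600], [208008648, 581515200, 406425600],
   [208037438, 581555520, 406425600], [208052224, 581575680, 406425600],
   [208066202, 581595840, 406425600], [208080632, 581616000, 406425600],
   [208080800, 581616000, 406425600], [208095066, 581636160, 406425600],
   [208109504, 581656320, 406425600], [208123904, 581676480, 406425600],
   [208138336, 581696640, 406425600], [208138392, 581696640, 406425600],
   [208138672, 581696640, 406425600], [208152800, 581716800, 406425600]]

/-- Atoms. -/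
def atoms2 : List (List ℕ) :=
  [[208196048, 581777280, 406425600], [208224928, 581817600, 406425600],
   [208225152, 581817600, 406425600], [208253768, 581857920, 406425600],
   [208268208, 581878080, 406425600], [208297058, 581918400, 406425600],
   [208297100, 581918400, 406425600], [208311496, 581938560, 406425600],
   [208311552, 581938560, 406425600], [208340363, 581978880, 406425600],
   [208340384, 581978880, 406425600], [208354792, 581999040, 406425600],
   [208369232, 582019200, 406425600], [208369400, 582019200, 406425600],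
   [208398208, 582059520, 406425600], [208412534, 582079680, 406425600],
   [208426976, 582099840, 406425600], [208441422, 582120000, 406425600],
   [208441492, 582120000, 406425600], [208441800, 582120000, 406425600],
   [208455872, 582140160, 406425600], [208484784, 582180480, 406425600],
   [208528042, 582240960, 406425600], [208528182, 582240960, 406425600],
   [208542488, 582261120, 406425600], [208571392, 582301440, 406425600],
   [208571616, 582301440, 406425600], [208585808, 582321600, 406425600],
   [208585850, 582321600, 406425600], [208658032, 582422400, 406425600],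
   [208658200, 582422400, 406425600], [208686944, 582462720, 406425600],
   [208773608, 582583680, 406425600], [208802528, 582624000, 406425600],
   [208831464, 582664320, 406425600], [208845938, 582684480, 406425600],
   [208860416, 582704640, 406425600], [208889216, 582744960, 406425600],
   [208918144, 582785280, 406425600], [208918368, 582785280, 406425600],
   [208947200, 582825600, 406425600], [208947368, 582825600, 406425600],
   [208976384, 582865920, 406425600],
   [43237300248870912, 241793746093670400, 507063575583129600, 472603392737280000, 165181768335360000],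
   [43237619638861824, 241794639146188800, 507064199852851200, 472603392737280000, 165181768335360000],
   [43141563098857472, 241391909805096960, 506501368676352000, 472341199454208000, 165181768335360000],
   [43141775789522944, 241392504843141120, 506501784856166400, 472341199454208000, 165181768335360000],
   [43070029102327808, 241091285234688000, 506080240223846400, 472144554491904000, 165181768335360000],
   [43249402959530112, 241844354701931520, 507134116435968000, 472636166897664000, 165181768335360000],
   [43249582641397248, 241844857078809600, 507134467587686400, 472636166897664000, 165181768335360000]]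

/-- Atoms. -/
def atoms3 : List (List ℕ) :=
  [[43105702311516672, 241241334997985280, 506290620745728000, 472242876973056000, 165181768335360000],
   [43105821900217344, 241241669637212160, 506290854846873600, 472242876973056000, 165181768335360000],
   [43177545186089472, 241542823969843200, 506712353959526400, 472439521935360000, 165181768335360000],
   [43177664874405888, 241543158748416000, 506712588060672000, 472439521935360000, 165181768335360000],
   [43393612706141184, 242448797807032320, 507978607056076800, 473029456822272000, 165181768335360000],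
   [43393732693553664, 242449133003642880, 507978841157222400, 473029456822272000, 165181768335360000],
   [43429733072764928, 242600098323824640, 508189862205849600, 473127779303424000, 165181768335360000],
   [43429839772614656, 242600396338298880, 508190070295756800, 473127779303424000, 165181768335360000],
   [43273443715315200, 241945111465344000, 507274876252569600, 472701715218432000, 165181768335360000],
   [43273543566268800, 241945390602316800, 507275071336857600, 472701715218432000, 165181768335360000],
   [43309492400627712, 242096211764305920, 507485991591936000, 472800037699584000, 165181768335360000],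
   [43309572314646528, 242096435120332800, 507486147659366400, 472800037699584000, 165181768335360000],
   [43453777194860544, 242700864444702720, 508330628525260800, 473193327624192000, 165181768335360000],
   [43453857241884672, 242701087986524160, 508330784592691200, 473193327624192000, 165181768335360000],
   [43117705193480192, 241291664499916800, 506360966514278400, 472275651133440000, 165181768335360000],
   [43117758351392768, 241291813238784000, 506361070559232000, 472275651133440000, 165181768335360000],
   [43501985515126784, 242902732006932480, 508612395265228800, 473324424265728000, 165181768335360000],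
   [43502038909394944, 242902881076101120, 508612499310182400, 473324424265728000, 165181768335360000],
   [42986264642394752, 240739694375685120, 505588320560332800, 471915135369216000, 165181768335360000],
   [43321601880101888, 242146839137817600, 507556545450393600, 472832811859968000, 165181768335360000],
   [42986211565595904, 240739545750359040, 505588216515379200, 471915135369216000, 165181768335360000],
   [42986231469389952, 240739601484856320, 505588255532236800, 471915135369216000, 165181768335360000],
   [43081822776039552, 241141029218933760, 506150176315392000, 472177328652288000, 165181768335360000],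
   [43081842701956608, 241141084984396800, 506150215332249600, 472177328652288000, 165181768335360000],
   [43225538535811584, 241744090981155840, 506993701268275200, 472570618576896000, 165181768335360000],
   [43225558494936192, 241744146793067520, 506993740285132800, 472570618576896000, 165181768335360000],
   [43273523596044672, 241945334774922240, 507275032320000000, 472701715218432000, 165181768335360000],
   [43273543566244608, 241945390602316800, 507275071336857600, 472701715218432000, 165181768335360000],
   [43297531102426752, 242045998540416000, 507415727108505600, 472767263539200000, 165181768335360000],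
   [43297551078165504, 242046054375552000, 507415766125363200, 472767263539200000, 165181768335360000],
   [43345576081569024, 242247409827978240, 507697175210803200, 472898360180736000, 165181768335360000],
   [43345596068387712, 242247465678597120, 507697214227660800, 472898360180736000, 165181768335360000],
   [43369613559869184, 242348157357788160, 507837928524595200, 472963908501504000, 165181768335360000],
   [43369633552228992, 242348213216148480, 507837967541452800, 472963908501504000, 165181768335360000],
   [43417718507780352, 242549736208819200, 508119493677465600, 473095005143040000, 165181768335360000],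
   [43417738511224704, 242549792082662400, 508119532694323200, 473095005143040000, 165181768335360000],
   [43441785982933632, 242650567537781760, 508260305516544000, 473160553463808000, 165181768335360000],
   [43441805991921408, 242650623419366400, 508260344533401600, 473160553463808000, 165181768335360000],
   [43225546852112384, 241744114236119040, 506993717525299200, 472570618576896000, 165181768335360000],
   [43225560158196224, 241744151444060160, 506993743536537600, 472570618576896000, 165181768335360000],
   [43249534393370624, 241844722181314560, 507134373296947200, 472636166897664000, 165181768335360000],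
   [43249547703145984, 241844759394416640, 507134399308185600, 472636166897664000, 165181768335360000],
   [43441794320010752, 242650590821775360, 508260321773568000, 473160553463808000, 165181768335360000],
   [43441807659336704, 242650628076165120, 508260347784806400, 473160553463808000, 165181768335360000],
   [43538164302528512, 243054195597158400, 508823764214169600, 473422746746880000, 165181768335360000],
   [43538177656642048, 243054232872192000, 508823790225408000, 473422746746880000, 165181768335360000],
   [43153649080270208, 241442471767956480, 506571877015142400, 472373973614592000, 165181768335360000],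
   [43153655727776512, 241442490364185600, 506571890020761600, 472373973614592000, 165181768335360000],
   [43297544419584512, 242046035763840000, 507415753119744000, 472767263539200000, 165181768335360000],
   [43297551078164608, 242046054375552000, 507415766125363200, 472767263539200000, 165181768335360000]]

/-- Atoms. -/
def atoms4 : List (List ℕ) :=
  [[43369626888107648, 242348194596695040, 507837954535833600, 472963908501504000, 165181768335360000],
   [43369633552228096, 242348213216148480, 507837967541452800, 472963908501504000, 165181768335360000]]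

/-- All atoms. -/
def atoms : List (List ℕ) := atoms0 ++ atoms1 ++ atoms2 ++ atoms3 ++ atoms4

/-- Rows. -/
def rows0 : List Row :=
  [⟨[2171413, 6063960, 4233600], [0, 0, 0, 0, 0, 1], [40, 22], [0, 0, 0, 0, 0, 0, 0, 0, 0, 0, 1, 1], [162], [22, 40, 1, 0], [162]⟩,
   ⟨[2403, 3360], [0, 1], [19], [0, 0, 1, 1], [84], [19, 1, 0], [84]⟩,
   ⟨[37689000442275, 210546670265400, 441075966307200, 410672747520000, 143386951680000], [0, 0, 0, 0, 0, 0, 0, 1, 1], [34, 27, 32, 30], [0, 0, 0, 0, 0, 0, 0, 0, 0, 0, 0, 0, 0, 0, 1, 1, 1, 1], [184, 185], [30, 32, 27, 34, 0], [185, 184]⟩,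
   ⟨[1802, 2520], [0, 0, 0], [18], [0, 0, 0, 0, 0, 0], [82], [18, 0], [82]⟩,
   ⟨[104047525, 290818080, 203212800], [0], [23, 24], [0, 0], [90, 95], [24, 23, 0], [95, 90]⟩,
   ⟨[103903320, 290616480, 203212800], [0], [17, 18], [0, 0], [67, 72], [18, 17, 0], [72, 67]⟩,
   ⟨[26010077, 72702000, 50803200], [0, 0, 0], [26, 21], [0, 0, 0, 0, 0, 0], [198], [21, 26, 0], [198]⟩,
   ⟨[1440, 2016], [0, 2], [7], [0, 0, 2, 2], [51], [7, 2, 0], [51]⟩,
   ⟨[3610, 5040], [0, 0], [34], [0, 0, 0, 0], [125], [34], [125]⟩,
   ⟨[3612, 5040], [0, 0], [38], [0, 0, 0, 0], [133], [38], [133]⟩,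
   ⟨[2888406, 8075760, 5644800], [0, 0, 0, 1, 1], [19, 22], [0, 0, 0, 0, 0, 0, 1, 1, 1, 1], [69, 97], [22, 19, 0], [97, 69]⟩,
   ⟨[85035490194501, 474715262177100, 993796439882400, 924653802240000, 322620641280000], [0, 0, 0, 0, 0, 0, 0, 0, 0], [38, 36, 129], [0, 0, 0, 0, 0, 0, 0, 0, 0, 0, 0, 0, 0, 0, 0, 0, 0, 0], [194, 195], [129, 36, 38, 0], [195, 194]⟩,
   ⟨[2404, 3360], [0, 1], [22], [0, 0, 1, 1], [97], [22, 1, 0], [97]⟩,
   ⟨[7224, 10080], [0], [38], [0, 0], [132], [38, 0], [132]⟩,
   ⟨[14412, 20160], [], [14], [], [62], [14], [62]⟩,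
   ⟨[1038961, 2906064, 2032128], [0, 0, 0, 2, 2], [13, 20], [0, 0, 0, 0, 0, 0, 2, 2, 2, 2], [51, 92], [20, 13, 0], [92, 51]⟩,
   ⟨[1039394340900, 5816972953260, 12208013546400, 11387029248000, 3982970880000], [0, 0, 0, 0, 0, 0, 0, 0, 0, 1, 1, 1, 1], [19, 7, 56], [0, 0, 0, 0, 0, 0, 0, 0, 0, 0, 0, 0, 0, 0, 0, 0, 0, 0, 1, 1, 1, 1, 1, 1, 1, 1], [150, 151], [56, 7, 19, 0], [151, 150]⟩,
   ⟨[1441801, 4034520, 2822400], [0, 0, 0, 0, 1, 1], [56], [0, 0, 0, 0, 0, 0, 0, 0, 1, 1, 1, 1], [151], [56], [151]⟩,
   ⟨[37314428400600, 208975324320840, 438878677104000, 409648555008000, 143386951680000], [0, 0, 0, 0, 0, 0, 0, 1, 1], [9, 5, 7, 6], [0, 0, 0, 0, 0, 0, 0, 0, 0, 0, 0, 0, 0, 0, 1, 1, 1, 1], [170, 171], [6, 7, 5, 9, 0], [171, 170]⟩,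
   ⟨[1502551862526, 8400876772008, 17613714367872, 16413254000640, 5735478067200], [0, 0, 0, 0, 0, 0, 0, 1, 1, 2, 2], [32, 13, 27, 18], [0, 0, 0, 0, 0, 0, 0, 0, 0, 0, 0, 0, 0, 0, 1, 1, 1, 1, 2, 2, 2, 2], [158, 159], [18, 27, 13, 32, 0], [159, 158]⟩,
   ⟨[14424, 20160], [], [22], [], [90], [22], [90]⟩,
   ⟨[1444, 2016], [0, 2], [34], [0, 0, 2, 2], [130], [34, 2, 0], [130]⟩,
   ⟨[1441799, 4034520, 2822400], [0, 0, 0, 0, 1, 1], [22, 5], [0, 0, 0, 0, 0, 0, 0, 0, 1, 1, 1, 1], [150], [5, 22], [150]⟩,
   ⟨[2898028, 8089200, 5644800], [0, 0, 0, 1, 1], [36, 38], [0, 0, 0, 0, 0, 0, 1, 1, 1, 1], [121, 134], [38, 36, 0], [134, 121]⟩,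
   ⟨[811351, 2269890, 1587600], [0, 0, 0, 0, 0, 0, 0, 0], [61], [0, 0, 0, 0, 0, 0, 0, 0, 0, 0, 0, 0, 0, 0, 0, 0], [146], [61], [146]⟩,
   ⟨[25981236, 72661680, 50803200], [0, 0, 0], [18, 19], [0, 0, 0, 0, 0, 0], [68, 78], [19, 18, 0], [78, 68]⟩,
   ⟨[2401, 3360], [0, 1], [10], [0, 0, 1, 1], [56], [10, 1, 0], [56]⟩,
   ⟨[7215, 10080], [0], [27], [0, 0], [103], [27, 0], [103]⟩,
   ⟨[1620900, 4537260, 3175200], [0, 0, 0, 0, 0, 0, 0], [7, 11], [0, 0, 0, 0, 0, 0, 0, 0, 0, 0, 0, 0, 0, 0], [43, 61], [11, 7, 0], [61, 43]⟩,
   ⟨[2058, 2880], [3], [10], [3, 3], [57], [10, 3], [57]⟩,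
   ⟨[1285606, 3591840, 2508800], [0, 1, 1, 1, 1], [25, 32], [0, 0, 1, 1, 1, 1, 1, 1, 1, 1], [87, 123], [32, 25, 0], [123, 87]⟩,
   ⟨[3716757, 10387440, 7257600], [0, 0, 0, 3], [97], [0, 0, 0, 0, 0, 0, 3, 3], [169], [97, 3, 0], [169]⟩]

/-- Rows. -/
def rows1 : List Row :=
  [⟨[1602, 2240], [1, 1], [19], [1, 1, 1, 1], [87], [19], [87]⟩,
   ⟨[14874237, 41559840, 29030400], [0, 3], [25, 30], [0, 0, 3, 3], [96, 109], [30, 25, 3, 0], [109, 96]⟩,
   ⟨[407253, 1137150, 793800], [0, 0, 0, 0, 0, 0, 0, 0, 0], [28, 38], [0, 0, 0, 0, 0, 0, 0, 0, 0, 0, 0, 0, 0, 0, 0, 0, 0, 0], [89, 142], [38, 28, 0], [142, 89]⟩,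
   ⟨[25938003, 72601200, 50803200], [0, 0, 0], [9, 10], [0, 0, 0, 0, 0, 0], [47, 54], [10, 9, 0], [54, 47]⟩,
   ⟨[7222, 10080], [0], [37], [0, 0], [129], [37, 0], [129]⟩,
   ⟨[2129016, 5942880, 4147200], [0, 3, 3], [35, 38], [0, 0, 3, 3, 3, 3], [118, 135], [38, 35, 0], [135, 118]⟩,
   ⟨[723003, 2020200, 1411200], [0, 0, 0, 0, 0, 1, 1], [22, 32], [0, 0, 0, 0, 0, 0, 0, 0, 0, 0, 1, 1, 1, 1], [77, 126], [32, 22, 0], [126, 77]⟩,
   ⟨[429188617341, 2402453613420, 5043049048800, 4704884352000, 1646023680000], [0, 0, 0, 0, 0, 0, 0, 0, 0, 0, 0, 3, 3], [52, 53], [0, 0, 0, 0, 0, 0, 0, 0, 0, 0, 0, 0, 0, 0, 0, 0, 0, 0, 0, 0, 0, 0, 3, 3, 3, 3], [82, 42, 147], [53, 52, 0], [147, 42, 82]⟩,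
   ⟨[12997828, 36340920, 25401600], [0, 0, 0, 0], [83], [0, 0, 0, 0, 0, 0, 0, 0], [191], [83], [191]⟩,
   ⟨[8682049, 24250800, 16934400], [0, 0, 0, 1], [36, 26], [0, 0, 0, 0, 0, 0, 1, 1], [184], [26, 36, 1, 0], [184]⟩,
   ⟨[5310304225128, 29651221501650, 62086480381800, 57778860384000, 20163790080000], [0, 0, 0, 0, 0, 0, 0, 0, 0, 0, 0, 0, 0], [38, 32, 125], [0, 0, 0, 0, 0, 0, 0, 0, 0, 0, 0, 0, 0, 0, 0, 0, 0, 0, 0, 0, 0, 0, 0, 0, 0, 0], [166, 167], [125, 32, 38, 0], [167, 166]⟩,
   ⟨[13041127, 36401400, 25401600], [0, 0, 0, 0], [129], [0, 0, 0, 0, 0, 0, 0, 0], [195], [129], [195]⟩,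
   ⟨[6853673695996, 38383231720680, 80610375484800, 75241571328000, 26336378880000], [0, 0, 0, 0, 0, 0, 0, 3, 3], [44, 45], [0, 0, 0, 0, 0, 0, 0, 0, 0, 0, 0, 0, 0, 0, 3, 3, 3, 3], [52, 41, 168], [45, 44, 0], [168, 41, 52]⟩,
   ⟨[104191830, 291019680, 203212800], [0], [31, 32], [0, 0], [111, 115], [32, 31, 0], [115, 111]⟩,
   ⟨[7216, 10080], [0], [28], [0, 0], [107], [28, 0], [107]⟩,
   ⟨[3609, 5040], [0, 0], [32], [0, 0, 0, 0], [120], [32], [120]⟩,
   ⟨[7203, 10080], [0], [10], [0, 0], [54], [10, 0], [54]⟩,
   ⟨[8662813, 24223920, 16934400], [0, 0, 0, 1], [24, 14], [0, 0, 0, 0, 0, 0, 1, 1], [174], [14, 24, 1, 0], [174]⟩,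
   ⟨[4163055, 11634336, 8128512], [0, 2, 2], [23, 27], [0, 0, 2, 2, 2, 2], [86, 106], [27, 23, 0], [106, 86]⟩,
   ⟨[7207, 10080], [0], [16], [0, 0], [68], [16, 0], [68]⟩,
   ⟨[8667620, 24230640, 16934400], [0, 0, 0, 1], [27, 18], [0, 0, 0, 0, 0, 0, 1, 1], [176], [18, 27, 1, 0], [176]⟩,
   ⟨[3244502, 9078300, 6350400], [0, 0, 0, 0, 0, 0], [58], [0, 0, 0, 0, 0, 0, 0, 0, 0, 0, 0, 0], [165], [58], [165]⟩,
   ⟨[2064, 2880], [3], [38], [3, 3], [135], [38, 3], [135]⟩,
   ⟨[8684457, 24254160, 16934400], [0, 0, 0, 1], [33, 32], [0, 0, 0, 0, 0, 0, 1, 1], [187], [32, 33, 1, 0], [187]⟩,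
   ⟨[1441, 2016], [0, 2], [13], [0, 0, 2, 2], [70], [13, 2, 0], [70]⟩,
   ⟨[14440, 20160], [], [34], [], [122], [34], [122]⟩,
   ⟨[6492606, 18161640, 12700800], [0, 0, 0, 0, 0], [14, 18], [0, 0, 0, 0, 0, 0, 0, 0, 0, 0], [58, 76], [18, 14, 0], [76, 58]⟩,
   ⟨[541499, 1514100, 1058400], [0, 0, 0, 0, 0, 0, 0, 1], [38, 4], [0, 0, 0, 0, 0, 0, 0, 0, 0, 0, 0, 0, 0, 0, 1, 1], [143], [4, 38, 1, 0], [143]⟩,
   ⟨[2167807, 6058920, 4233600], [0, 0, 0, 0, 0, 1], [26, 22], [0, 0, 0, 0, 0, 0, 0, 0, 0, 0, 1, 1], [161], [22, 26, 1, 0], [161]⟩,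
   ⟨[4806, 6720], [1], [19], [1, 1], [79], [19, 1], [79]⟩,
   ⟨[2060, 2880], [3], [20], [3, 3], [88], [20, 3], [88]⟩,
   ⟨[6514245, 18191880, 12700800], [0, 0, 0, 0, 0], [32, 34], [0, 0, 0, 0, 0, 0, 0, 0, 0, 0], [110, 125], [34, 32, 0], [125, 110]⟩]

/-- Rows. -/
def rows2 : List Row :=
  [⟨[6499815, 18171720, 12700800], [0, 0, 0, 0, 0], [20, 22], [0, 0, 0, 0, 0, 0, 0, 0, 0, 0], [76, 94], [22, 20, 0], [94, 76]⟩,
   ⟨[3607, 5040], [0, 0], [26], [0, 0, 0, 0], [101], [26], [101]⟩,
   ⟨[901, 1260], [0, 0, 0, 0], [18], [0, 0, 0, 0, 0, 0, 0, 0], [89], [18], [89]⟩,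
   ⟨[13026684, 36381240, 25401600], [0, 0, 0, 0], [36, 28], [0, 0, 0, 0, 0, 0, 0, 0], [192], [28, 36], [192]⟩,
   ⟨[3244500, 9078300, 6350400], [0, 0, 0, 0, 0, 0], [20, 7], [0, 0, 0, 0, 0, 0, 0, 0, 0, 0, 0, 0], [164], [7, 20], [164]⟩,
   ⟨[12997826, 36340920, 25401600], [0, 0, 0, 0], [24, 18], [0, 0, 0, 0, 0, 0, 0, 0], [190], [18, 24], [190]⟩,
   ⟨[2167805, 6058920, 4233600], [0, 0, 0, 0, 0, 1], [34, 14], [0, 0, 0, 0, 0, 0, 0, 0, 0, 0, 1, 1], [160], [14, 34, 1, 0], [160]⟩,
   ⟨[2883, 4032], [2], [17], [2, 2], [75], [17, 2], [75]⟩,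
   ⟨[2405, 3360], [0, 1], [27], [0, 0, 1, 1], [108], [27, 1, 0], [108]⟩,
   ⟨[84471759859878, 472353009351300, 990496848247200, 923117513472000, 322620641280000], [0, 0, 0, 0, 0, 0, 0, 0, 0], [22, 19, 83], [0, 0, 0, 0, 0, 0, 0, 0, 0, 0, 0, 0, 0, 0, 0, 0, 0, 0], [190, 191], [83, 19, 22, 0], [191, 190]⟩,
   ⟨[3258928, 9098460, 6350400], [0, 0, 0, 0, 0, 0], [125], [0, 0, 0, 0, 0, 0, 0, 0, 0, 0, 0, 0], [167], [125], [167]⟩,
   ⟨[2406, 3360], [0, 1], [32], [0, 0, 1, 1], [121], [32, 1, 0], [121]⟩,
   ⟨[3602, 5040], [0, 0], [11], [0, 0, 0, 0], [58], [11], [58]⟩,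
   ⟨[3258926, 9098460, 6350400], [0, 0, 0, 0, 0, 0], [40, 28], [0, 0, 0, 0, 0, 0, 0, 0, 0, 0, 0, 0], [166], [28, 40], [166]⟩,
   ⟨[12994223, 36335880, 25401600], [0, 0, 0, 0], [78], [0, 0, 0, 0, 0, 0, 0, 0], [189], [78], [189]⟩,
   ⟨[7214, 10080], [0], [26], [0, 0], [100], [26, 0], [100]⟩,
   ⟨[14442, 20160], [], [36], [], [127], [36], [127]⟩,
   ⟨[14415, 20160], [], [17], [], [71], [17], [71]⟩,
   ⟨[14436, 20160], [], [32], [], [115], [32], [115]⟩,
   ⟨[7218, 10080], [0], [32], [0, 0], [116], [32, 0], [116]⟩,
   ⟨[26103925, 72833040, 50803200], [0, 0, 0], [39, 40], [0, 0, 0, 0, 0, 0], [132, 137], [40, 39, 0], [137, 132]⟩,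
   ⟨[8670026, 24234000, 16934400], [0, 0, 0, 1], [24, 22], [0, 0, 0, 0, 0, 0, 1, 1], [179], [22, 24, 1, 0], [179]⟩,
   ⟨[26075031, 72792720, 50803200], [0, 0, 0], [36, 37], [0, 0, 0, 0, 0, 0], [124, 129], [37, 36, 0], [129, 124]⟩,
   ⟨[8677240, 24244080, 16934400], [0, 0, 0, 1], [28, 27], [0, 0, 0, 0, 0, 0, 1, 1], [183], [27, 28, 1, 0], [183]⟩,
   ⟨[26031720, 72732240, 50803200], [0, 0, 0], [27, 28], [0, 0, 0, 0, 0, 0], [100, 107], [28, 27, 0], [107, 100]⟩,
   ⟨[7209, 10080], [0], [19], [0, 0], [78], [19, 0], [78]⟩,
   ⟨[2162100, 6050940, 4233600], [0, 0, 0, 0, 0, 1], [7, 16], [0, 0, 0, 0, 0, 0, 0, 0, 0, 0, 1, 1], [45, 69], [16, 7, 1, 0], [69, 45]⟩,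
   ⟨[26046153, 72752400, 50803200], [0, 0, 0], [30, 32], [0, 0, 0, 0, 0, 0], [107, 116], [32, 30, 0], [116, 107]⟩,
   ⟨[2349692510721, 13134566158980, 27532881381600, 25651043712000, 8961684480000], [0, 0, 0, 0, 0, 0, 0, 0, 0, 0, 0, 1, 1], [32, 18, 26, 22], [0, 0, 0, 0, 0, 0, 0, 0, 0, 0, 0, 0, 0, 0, 0, 0, 0, 0, 0, 0, 0, 0, 1, 1, 1, 1], [160, 161], [22, 26, 18, 32, 0], [161, 160]⟩,
   ⟨[338825236095060, 1893345343018920, 3967484070614400, 3695030535168000, 1290482565120000], [0, 0, 0, 0, 0, 0, 0], [28, 27, 103], [0, 0, 0, 0, 0, 0, 0, 0, 0, 0, 0, 0, 0, 0], [200, 201], [103, 27, 28, 0], [201, 200]⟩,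
   ⟨[1626306, 4544820, 3175200], [0, 0, 0, 0, 0, 0, 0], [22, 28], [0, 0, 0, 0, 0, 0, 0, 0, 0, 0, 0, 0, 0, 0], [82, 114], [28, 22, 0], [114, 82]⟩,
   ⟨[1800, 2520], [0, 0, 0], [7], [0, 0, 0, 0, 0, 0], [49], [7, 0], [49]⟩]

/-- Rows. -/
def rows3 : List Row :=
  [⟨[14859810, 41539680, 29030400], [0, 3], [20, 25], [0, 0, 3, 3], [80, 96], [25, 20, 3, 0], [96, 80]⟩,
   ⟨[11565645, 32319840, 22579200], [0, 1, 1], [25, 27], [0, 0, 1, 1, 1, 1], [93, 104], [27, 25, 0], [104, 93]⟩,
   ⟨[25966820, 72641520, 50803200], [0, 0, 0], [18, 13], [0, 0, 0, 0, 0, 0], [196], [13, 18, 0], [196]⟩,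
   ⟨[541501, 1514100, 1058400], [0, 0, 0, 0, 0, 0, 0, 1], [22, 18], [0, 0, 0, 0, 0, 0, 0, 0, 0, 0, 0, 0, 0, 0, 1, 1], [144], [18, 22, 1, 0], [144]⟩,
   ⟨[6489003, 18156600, 12700800], [0, 0, 0, 0, 0], [11, 14], [0, 0, 0, 0, 0, 0, 0, 0, 0, 0], [52, 66], [14, 11, 0], [66, 52]⟩,
   ⟨[1204, 1680], [0, 0, 1], [38], [0, 0, 0, 0, 1, 1], [139], [38, 1], [139]⟩,
   ⟨[1041846, 2910096, 2032128], [0, 0, 0, 2, 2], [27, 34], [0, 0, 0, 0, 0, 0, 2, 2, 2, 2], [92, 130], [34, 27, 0], [130, 92]⟩,
   ⟨[1030, 1440], [0, 3], [20], [0, 0, 3, 3], [98], [20, 3, 0], [98]⟩,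
   ⟨[3605, 5040], [0, 0], [20], [0, 0, 0, 0], [85], [20], [85]⟩,
   ⟨[1446608, 4041240, 2822400], [0, 0, 0, 0, 1, 1], [108], [0, 0, 0, 0, 0, 0, 0, 0, 1, 1, 1, 1], [155], [108], [155]⟩,
   ⟨[26024505, 72722160, 50803200], [0, 0, 0], [26, 27], [0, 0, 0, 0, 0, 0], [96, 103], [27, 26, 0], [103, 96]⟩,
   ⟨[14845390, 41519520, 29030400], [0, 3], [15, 20], [0, 0, 3, 3], [63, 80], [20, 15, 3, 0], [80, 63]⟩,
   ⟨[8677238, 24244080, 16934400], [0, 0, 0, 1], [33, 22], [0, 0, 0, 0, 0, 0, 1, 1], [182], [22, 33, 1, 0], [182]⟩,
   ⟨[8648400, 24203760, 16934400], [0, 0, 0, 1], [16, 7], [0, 0, 0, 0, 0, 0, 1, 1], [172], [7, 16, 1, 0], [172]⟩,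
   ⟨[1201, 1680], [0, 0, 1], [14], [0, 0, 0, 0, 1, 1], [77], [14, 1], [77]⟩,
   ⟨[724206, 2021880, 1411200], [0, 0, 0, 0, 0, 1, 1], [32, 38], [0, 0, 0, 0, 0, 0, 0, 0, 0, 0, 1, 1, 1, 1], [102, 139], [38, 32, 0], [139, 102]⟩,
   ⟨[14432, 20160], [], [28], [], [105], [28], [105]⟩,
   ⟨[1801, 2520], [0, 0, 0], [11], [0, 0, 0, 0, 0, 0], [61], [11, 0], [61]⟩,
   ⟨[1629915, 4549860, 3175200], [0, 0, 0, 0, 0, 0, 0], [34, 38], [0, 0, 0, 0, 0, 0, 0, 0, 0, 0, 0, 0, 0, 0], [114, 136], [38, 34, 0], [136, 114]⟩,
   ⟨[2124891, 5937120, 4147200], [0, 3, 3], [25, 30], [0, 0, 3, 3, 3, 3], [88, 118], [30, 25, 0], [118, 88]⟩,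
   ⟨[2886003, 8072400, 5644800], [0, 0, 0, 1, 1], [14, 19], [0, 0, 0, 0, 0, 0, 1, 1, 1, 1], [56, 84], [19, 14, 0], [84, 56]⟩,
   ⟨[4808, 6720], [1], [22], [1, 1], [93], [22, 1], [93]⟩,
   ⟨[8684455, 24254160, 16934400], [0, 0, 0, 1], [37, 27], [0, 0, 0, 0, 0, 0, 1, 1], [186], [27, 37, 1, 0], [186]⟩,
   ⟨[37626376801195, 210284234160840, 440709370416000, 410502048768000, 143386951680000], [0, 0, 0, 0, 0, 0, 0, 1, 1], [30, 22, 27, 26], [0, 0, 0, 0, 0, 0, 0, 0, 0, 0, 0, 0, 0, 0, 1, 1, 1, 1], [180, 181], [26, 27, 22, 30, 0], [181, 180]⟩,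
   ⟨[960, 1344], [1, 2], [7], [1, 1, 2, 2], [55], [7, 2, 1], [55]⟩,
   ⟨[1443, 2016], [0, 2], [27], [0, 0, 2, 2], [113], [27, 2, 0], [113]⟩,
   ⟨[7201, 10080], [0], [8], [0, 0], [47], [8, 0], [47]⟩,
   ⟨[1041126664501, 5824242654300, 12218182653600, 11391770880000, 3982970880000], [0, 0, 0, 0, 0, 0, 0, 0, 0, 1, 1, 1, 1], [22, 10, 69], [0, 0, 0, 0, 0, 0, 0, 0, 0, 0, 0, 0, 0, 0, 0, 0, 0, 0, 1, 1, 1, 1, 1, 1, 1, 1], [152, 153], [69, 10, 22, 0], [153, 152]⟩,
   ⟨[37522177530705, 209847325422840, 440098715952000, 410217550848000, 143386951680000], [0, 0, 0, 0, 0, 0, 0, 1, 1], [22, 16, 20, 19], [0, 0, 0, 0, 0, 0, 0, 0, 0, 0, 0, 0, 0, 0, 1, 1, 1, 1], [174, 175], [19, 20, 16, 22, 0], [175, 174]⟩,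
   ⟨[11541610, 32286240, 22579200], [0, 1, 1], [14, 17], [0, 0, 1, 1, 1, 1], [59, 73], [17, 14, 0], [73, 59]⟩,
   ⟨[1203, 1680], [0, 0, 1], [32], [0, 0, 0, 0, 1, 1], [126], [32, 1], [126]⟩,
   ⟨[26031719, 72732240, 50803200], [0, 0, 0], [30, 26], [0, 0, 0, 0, 0, 0], [200], [26, 30, 0], [200]⟩]

/-- Rows. -/
def rows4 : List Row :=
  [⟨[2402, 3360], [0, 1], [14], [0, 0, 1, 1], [69], [14, 1, 0], [69]⟩,
   ⟨[37709892350196, 210634197464040, 441198198806400, 410729647104000, 143386951680000], [0, 0, 0, 0, 0, 0, 0, 1, 1], [36, 28, 33, 32], [0, 0, 0, 0, 0, 0, 0, 0, 0, 0, 0, 0, 0, 0, 1, 1, 1, 1], [186, 187], [32, 33, 28, 36, 0], [187, 186]⟩,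
   ⟨[26038936, 72742320, 50803200], [0, 0, 0], [28, 30], [0, 0, 0, 0, 0, 0], [103, 112], [30, 28, 0], [112, 103]⟩,
   ⟨[7206, 10080], [0], [14], [0, 0], [63], [14, 0], [63]⟩,
   ⟨[1028, 1440], [0, 3], [4], [0, 0, 3, 3], [46], [4, 3, 0], [46]⟩,
   ⟨[1446606, 4041240, 2822400], [0, 0, 0, 0, 1, 1], [38, 19], [0, 0, 0, 0, 0, 0, 0, 0, 1, 1, 1, 1], [154], [19, 38], [154]⟩,
   ⟨[1445, 2016], [0, 2], [39], [0, 0, 2, 2], [140], [39, 2, 0], [140]⟩,
   ⟨[2357520465405, 13167370671420, 27578705868000, 25672381056000, 8961684480000], [0, 0, 0, 0, 0, 0, 0, 0, 0, 0, 0, 1, 1], [38, 26, 34, 32], [0, 0, 0, 0, 0, 0, 0, 0, 0, 0, 0, 0, 0, 0, 0, 0, 0, 0, 0, 0, 0, 0, 1, 1, 1, 1], [162, 163], [32, 34, 26, 38, 0], [163, 162]⟩,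
   ⟨[1604, 2240], [1, 1], [32], [1, 1, 1, 1], [123], [32], [123]⟩,
   ⟨[1804, 2520], [0, 0, 0], [28], [0, 0, 0, 0, 0, 0], [114], [28, 0], [114]⟩,
   ⟨[329144816925, 1841676386445, 3864300359850, 3603677364000, 1260236880000], [0, 0, 0, 0, 0, 0, 0, 0, 0, 0, 0, 0, 0, 0, 0, 0, 0], [22, 7, 61], [0, 0, 0, 0, 0, 0, 0, 0, 0, 0, 0, 0, 0, 0, 0, 0, 0, 0, 0, 0, 0, 0, 0, 0, 0, 0, 0, 0, 0, 0, 0, 0, 0, 0], [145, 146], [61, 7, 22, 0], [146, 145]⟩,
   ⟨[146611395750, 819885907050, 1719373534200, 1602523440000, 560105280000], [0, 0, 0, 0, 0, 0, 0, 0, 0, 0, 0, 0, 0, 0, 0, 1, 1], [34, 7, 22, 18], [0, 0, 0, 0, 0, 0, 0, 0, 0, 0, 0, 0, 0, 0, 0, 0, 0, 0, 0, 0, 0, 0, 0, 0, 0, 0, 0, 0, 0, 0, 1, 1, 1, 1], [143, 144], [18, 22, 7, 34, 0], [144, 143]⟩,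
   ⟨[7208, 10080], [0], [18], [0, 0], [74], [18, 0], [74]⟩,
   ⟨[8638798, 24190320, 16934400], [0, 0, 0, 1], [10, 4], [0, 0, 0, 0, 0, 0, 1, 1], [170], [4, 10, 1, 0], [170]⟩,
   ⟨[962800, 2691920, 1881600], [0, 0, 0, 1, 1, 1], [36, 7], [0, 0, 0, 0, 0, 0, 1, 1, 1, 1, 1, 1], [148], [7, 36, 1, 0], [148]⟩,
   ⟨[6525078, 18207000, 12700800], [0, 0, 0, 0, 0], [38, 40], [0, 0, 0, 0, 0, 0, 0, 0, 0, 0], [131, 138], [40, 38, 0], [138, 131]⟩,
   ⟨[104162961, 290979360, 203212800], [0], [29, 30], [0, 0], [105, 111], [30, 29, 0], [111, 105]⟩,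
   ⟨[1200, 1680], [0, 0, 1], [7], [0, 0, 0, 0, 1, 1], [53], [7, 1], [53]⟩,
   ⟨[7220, 10080], [0], [34], [0, 0], [124], [34, 0], [124]⟩,
   ⟨[14426, 20160], [], [24], [], [95], [24], [95]⟩,
   ⟨[962, 1344], [1, 2], [27], [1, 1, 2, 2], [119], [27, 2, 1], [119]⟩,
   ⟨[463493364201, 2591784613880, 5434823945600, 5065116672000, 1770209280000], [0, 0, 0, 0, 0, 0, 0, 1, 1, 1, 1, 1, 1], [32, 10, 22, 19], [0, 0, 0, 0, 0, 0, 0, 0, 0, 0, 0, 0, 0, 0, 1, 1, 1, 1, 1, 1, 1, 1, 1, 1, 1, 1], [148, 149], [19, 22, 10, 32, 0], [149, 148]⟩,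
   ⟨[37647242670180, 210371688617160, 440831552112000, 410558948352000, 143386951680000], [0, 0, 0, 0, 0, 0, 0, 1, 1], [32, 24, 28, 27], [0, 0, 0, 0, 0, 0, 0, 0, 0, 0, 0, 0, 0, 0, 1, 1, 1, 1], [182, 183], [27, 28, 24, 32, 0], [183, 182]⟩,
   ⟨[1202, 1680], [0, 0, 1], [22], [0, 0, 0, 0, 1, 1], [102], [22, 1], [102]⟩,
   ⟨[104278461, 291140640, 203212800], [0], [35, 36], [0, 0], [122, 127], [36, 35, 0], [127, 122]⟩,
   ⟨[84424909189753, 472156509453300, 990222129943200, 922989489408000, 322620641280000], [0, 0, 0, 0, 0, 0, 0, 0, 0], [21, 18, 78], [0, 0, 0, 0, 0, 0, 0, 0, 0, 0, 0, 0, 0, 0, 0, 0, 0, 0], [188, 189], [78, 18, 21, 0], [189, 188]⟩,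
   ⟨[8670024, 24234000, 16934400], [0, 0, 0, 1], [28, 19], [0, 0, 0, 0, 0, 0, 1, 1], [178], [19, 28, 1, 0], [178]⟩,
   ⟨[26031721, 72732240, 50803200], [0, 0, 0], [103], [0, 0, 0, 0, 0, 0], [201], [103, 0], [201]⟩,
   ⟨[2883601, 8069040, 5644800], [0, 0, 0, 1, 1], [10, 14], [0, 0, 0, 0, 0, 0, 1, 1, 1, 1], [48, 69], [14, 10, 0], [69, 48]⟩,
   ⟨[3606, 5040], [0, 0], [22], [0, 0, 0, 0], [94], [22], [94]⟩,
   ⟨[1325371900105, 7403572001070, 15508726997400, 14438713968000, 5040947520000], [0, 0, 0, 0, 0, 0, 0, 0, 0, 0, 0, 0, 0, 0, 0], [34, 28, 114], [0, 0, 0, 0, 0, 0, 0, 0, 0, 0, 0, 0, 0, 0, 0, 0, 0, 0, 0, 0, 0, 0, 0, 0, 0, 0, 0, 0, 0, 0], [156, 157], [114, 28, 34, 0], [157, 156]⟩,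
   ⟨[3604, 5040], [0, 0], [18], [0, 0, 0, 0], [76], [18], [76]⟩]

/-- Rows. -/
def rows5 : List Row :=
  [⟨[8667622, 24230640, 16934400], [0, 0, 0, 1], [22, 21], [0, 0, 0, 0, 0, 0, 1, 1], [177], [21, 22, 1, 0], [177]⟩,
   ⟨[4168828, 11642400, 8128512], [0, 2, 2], [31, 34], [0, 0, 2, 2, 2, 2], [106, 128], [34, 31, 0], [128, 106]⟩,
   ⟨[37397424252601, 209323834289640, 439366489430400, 409876153344000, 143386951680000], [0, 0, 0, 0, 0, 0, 0, 1, 1], [14, 8, 11, 10], [0, 0, 0, 0, 0, 0, 0, 0, 0, 0, 0, 0, 0, 0, 1, 1, 1, 1], [172, 173], [10, 11, 8, 14, 0], [173, 172]⟩,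
   ⟨[926485, 2593080, 1814400], [0, 0, 0, 0, 0, 3], [20, 4], [0, 0, 0, 0, 0, 0, 0, 0, 0, 0, 3, 3], [82, 42], [4, 20, 3, 0], [42, 82]⟩,
   ⟨[1628109, 4547340, 3175200], [0, 0, 0, 0, 0, 0, 0], [38, 22], [0, 0, 0, 0, 0, 0, 0, 0, 0, 0, 0, 0, 0, 0], [156], [22, 38, 0], [156]⟩,
   ⟨[4160170, 11630304, 8128512], [0, 2, 2], [20, 23], [0, 0, 2, 2, 2, 2], [75, 99], [23, 20, 0], [99, 75]⟩,
   ⟨[14414, 20160], [], [16], [], [67], [16], [67]⟩,
   ⟨[531996, 1485360, 1036800], [0, 0, 0, 3, 3], [30, 38], [0, 0, 0, 0, 0, 0, 3, 3, 3, 3], [98, 141], [38, 30, 0], [141, 98]⟩,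
   ⟨[2884, 4032], [2], [20], [2, 2], [86], [20, 2], [86]⟩,
   ⟨[11546415, 32292960, 22579200], [0, 1, 1], [17, 19], [0, 0, 1, 1, 1, 1], [65, 79], [19, 17, 0], [79, 65]⟩,
   ⟨[1282401, 3587360, 2508800], [0, 1, 1, 1, 1], [12, 19], [0, 0, 1, 1, 1, 1, 1, 1, 1, 1], [50, 87], [19, 12, 0], [87, 50]⟩,
   ⟨[2171415, 6063960, 4233600], [0, 0, 0, 0, 0, 1], [34, 32], [0, 0, 0, 0, 0, 0, 0, 0, 0, 0, 1, 1], [163], [32, 34, 1, 0], [163]⟩,
   ⟨[8682051, 24250800, 16934400], [0, 0, 0, 1], [32, 30], [0, 0, 0, 0, 0, 0, 1, 1], [185], [30, 32, 1, 0], [185]⟩,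
   ⟨[7210, 10080], [0], [20], [0, 0], [83], [20, 0], [83]⟩,
   ⟨[14434, 20160], [], [30], [], [111], [30], [111]⟩,
   ⟨[1442, 2016], [0, 2], [20], [0, 0, 2, 2], [92], [20, 2, 0], [92]⟩,
   ⟨[4803, 6720], [1], [12], [1, 1], [59], [12, 1], [59]⟩,
   ⟨[14888671, 41580000, 29030400], [0, 3], [30, 35], [0, 0, 3, 3], [109, 124], [35, 30, 3, 0], [124, 109]⟩,
   ⟨[8662815, 24223920, 16934400], [0, 0, 0, 1], [20, 19], [0, 0, 0, 0, 0, 0, 1, 1], [175], [19, 20, 1, 0], [175]⟩,
   ⟨[1032, 1440], [0, 3], [38], [0, 0, 3, 3], [141], [38, 3, 0], [141]⟩,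
   ⟨[8674833, 24240720, 16934400], [0, 0, 0, 1], [32, 21], [0, 0, 0, 0, 0, 0, 1, 1], [180], [21, 32, 1, 0], [180]⟩,
   ⟨[3709545, 10377360, 7257600], [0, 0, 0, 3], [20, 10], [0, 0, 0, 0, 0, 0, 3, 3], [81, 52], [10, 20, 3, 0], [52, 81]⟩,
   ⟨[1443000, 4036200, 2822400], [0, 0, 0, 0, 1, 1], [27, 7], [0, 0, 0, 0, 0, 0, 0, 0, 1, 1, 1, 1], [152], [7, 27], [152]⟩,
   ⟨[6503421, 18176760, 12700800], [0, 0, 0, 0, 0], [22, 26], [0, 0, 0, 0, 0, 0, 0, 0, 0, 0], [85, 101], [26, 22, 0], [101, 85]⟩,
   ⟨[962802, 2691920, 1881600], [0, 0, 0, 1, 1, 1], [22, 19], [0, 0, 0, 0, 0, 0, 1, 1, 1, 1, 1, 1], [149], [19, 22, 1, 0], [149]⟩,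
   ⟨[4804, 6720], [1], [14], [1, 1], [65], [14, 1], [65]⟩,
   ⟨[8674835, 24240720, 16934400], [0, 0, 0, 1], [27, 26], [0, 0, 0, 0, 0, 0, 1, 1], [181], [26, 27, 1, 0], [181]⟩,
   ⟨[2888, 4032], [2], [34], [2, 2], [128], [34, 2], [128]⟩,
   ⟨[3702344, 10367280, 7257600], [0, 0, 0, 3], [45], [0, 0, 0, 0, 0, 0, 3, 3], [168], [45, 3, 0], [168]⟩,
   ⟨[11575266, 32333280, 22579200], [0, 1, 1], [29, 32], [0, 0, 1, 1, 1, 1], [104, 117], [32, 29, 0], [117, 104]⟩,
   ⟨[926487, 2593080, 1814400], [0, 0, 0, 0, 0, 3], [53], [0, 0, 0, 0, 0, 0, 0, 0, 0, 0, 3, 3], [147], [53, 3, 0], [147]⟩,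
   ⟨[1733524, 4846128, 3386880], [0, 0, 0, 1, 2], [27, 18], [0, 0, 0, 0, 0, 0, 1, 1, 2, 2], [159], [18, 27, 2, 1, 0], [159]⟩]

/-- Rows. -/
def rows6 : List Row :=
  [⟨[2062, 2880], [3], [30], [3, 3], [118], [30, 3], [118]⟩,
   ⟨[8648402, 24203760, 16934400], [0, 0, 0, 1], [11, 10], [0, 0, 0, 0, 0, 0, 1, 1], [173], [10, 11, 1, 0], [173]⟩,
   ⟨[3608, 5040], [0, 0], [28], [0, 0, 0, 0], [110], [28], [110]⟩,
   ⟨[2885, 4032], [2], [23], [2, 2], [99], [23, 2], [99]⟩,
   ⟨[6521466, 18201960, 12700800], [0, 0, 0, 0, 0], [37, 38], [0, 0, 0, 0, 0, 0, 0, 0, 0, 0], [125, 133], [38, 37, 0], [133, 125]⟩,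
   ⟨[3716755, 10387440, 7257600], [0, 0, 0, 3], [30, 20], [0, 0, 0, 0, 0, 0, 3, 3], [110, 81], [20, 30, 3, 0], [81, 110]⟩,
   ⟨[7212, 10080], [0], [22], [0, 0], [91], [22, 0], [91]⟩,
   ⟨[1806, 2520], [0, 0, 0], [38], [0, 0, 0, 0, 0, 0], [136], [38, 0], [136]⟩,
   ⟨[811349, 2269890, 1587600], [0, 0, 0, 0, 0, 0, 0, 0], [28, 4], [0, 0, 0, 0, 0, 0, 0, 0, 0, 0, 0, 0, 0, 0, 0, 0], [145], [4, 28], [145]⟩,
   ⟨[337137909406431, 1886269383328680, 3957592839984000, 3690421668864000, 1290482565120000], [0, 0, 0, 0, 0, 0, 0], [16, 14, 63], [0, 0, 0, 0, 0, 0, 0, 0, 0, 0, 0, 0, 0, 0], [196, 197], [63, 14, 16, 0], [197, 196]⟩,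
   ⟨[7217, 10080], [0], [30], [0, 0], [112], [30, 0], [112]⟩,
   ⟨[6507028, 18181800, 12700800], [0, 0, 0, 0, 0], [26, 28], [0, 0, 0, 0, 0, 0, 0, 0, 0, 0], [94, 110], [28, 26, 0], [110, 94]⟩,
   ⟨[1046336629528, 5846088093300, 12248715376800, 11405995776000, 3982970880000], [0, 0, 0, 0, 0, 0, 0, 0, 0, 1, 1, 1, 1], [36, 22, 108], [0, 0, 0, 0, 0, 0, 0, 0, 0, 0, 0, 0, 0, 0, 0, 0, 0, 0, 1, 1, 1, 1, 1, 1, 1, 1], [154, 155], [108, 22, 36, 0], [155, 154]⟩,
   ⟨[25974028, 72651600, 50803200], [0, 0, 0], [16, 18], [0, 0, 0, 0, 0, 0], [63, 74], [18, 16, 0], [74, 63]⟩,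
   ⟨[25966822, 72641520, 50803200], [0, 0, 0], [63], [0, 0, 0, 0, 0, 0], [197], [63, 0], [197]⟩,
   ⟨[26010079, 72702000, 50803200], [0, 0, 0], [91], [0, 0, 0, 0, 0, 0], [199], [91, 0], [199]⟩,
   ⟨[2893215, 8082480, 5644800], [0, 0, 0, 1, 1], [27, 32], [0, 0, 0, 0, 0, 0, 1, 1, 1, 1], [97, 121], [32, 27, 0], [121, 97]⟩,
   ⟨[7205, 10080], [0], [13], [0, 0], [60], [13, 0], [60]⟩,
   ⟨[14413, 20160], [], [15], [], [64], [15], [64]⟩,
   ⟨[721801, 2018520, 1411200], [0, 0, 0, 0, 0, 1, 1], [14, 22], [0, 0, 0, 0, 0, 0, 0, 0, 0, 0, 1, 1, 1, 1], [53, 102], [22, 14, 0], [102, 53]⟩,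
   ⟨[4812, 6720], [1], [32], [1, 1], [117], [32, 1], [117]⟩,
   ⟨[2886, 4032], [2], [27], [2, 2], [106], [27, 2], [106]⟩,
   ⟨[4810, 6720], [1], [27], [1, 1], [104], [27, 1], [104]⟩,
   ⟨[103874491, 290576160, 203212800], [0], [15, 16], [0, 0], [62, 67], [16, 15, 0], [67, 62]⟩,
   ⟨[3702342, 10367280, 7257600], [0, 0, 0, 3], [10, 4], [0, 0, 0, 0, 0, 0, 3, 3], [52, 41], [4, 10, 3, 0], [41, 52]⟩,
   ⟨[6907139440146, 38607585138360, 80924186851200, 75387884544000, 26336378880000], [0, 0, 0, 0, 0, 0, 0, 3, 3], [96, 97], [0, 0, 0, 0, 0, 0, 0, 0, 0, 0, 0, 0, 0, 0, 3, 3, 3, 3], [110, 81, 169], [97, 96, 0], [169, 81, 110]⟩,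
   ⟨[14416, 20160], [], [18], [], [72], [18], [72]⟩,
   ⟨[5263394991751, 29454557967450, 61811647770600, 57650836320000, 20163790080000], [0, 0, 0, 0, 0, 0, 0, 0, 0, 0, 0, 0, 0], [18, 9, 58], [0, 0, 0, 0, 0, 0, 0, 0, 0, 0, 0, 0, 0, 0, 0, 0, 0, 0, 0, 0, 0, 0, 0, 0, 0, 0], [164, 165], [58, 9, 18, 0], [165, 164]⟩,
   ⟨[1040403, 2908080, 2032128], [0, 0, 0, 2, 2], [20, 27], [0, 0, 0, 0, 0, 0, 2, 2, 2, 2], [70, 113], [27, 20, 0], [113, 70]⟩,
   ⟨[338262091788081, 1890984727107000, 3964185622051200, 3693494246400000, 1290482565120000], [0, 0, 0, 0, 0, 0, 0], [24, 22, 91], [0, 0, 0, 0, 0, 0, 0, 0, 0, 0, 0, 0, 0, 0], [198, 199], [91, 22, 24, 0], [199, 198]⟩,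
   ⟨[13026686, 36381240, 25401600], [0, 0, 0, 0], [116], [0, 0, 0, 0, 0, 0, 0, 0], [193], [116], [193]⟩,
   ⟨[3611, 5040], [0, 0], [37], [0, 0, 0, 0], [131], [37], [131]⟩]

/-- Rows. -/
def rows7 : List Row :=
  [⟨[103888905, 290596320, 203212800], [0], [16, 17], [0, 0], [64, 71], [17, 16, 0], [71, 64]⟩,
   ⟨[2400, 3360], [0, 1], [7], [0, 0, 1, 1], [48], [7, 1, 0], [48]⟩,
   ⟨[37584671085325, 210109397967000, 440465057827200, 410388249600000, 143386951680000], [0, 0, 0, 0, 0, 0, 0, 1, 1], [27, 20, 24, 22], [0, 0, 0, 0, 0, 0, 0, 0, 0, 0, 0, 0, 0, 0, 1, 1, 1, 1], [178, 179], [22, 24, 20, 27, 0], [179, 178]⟩,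
   ⟨[1628111, 4547340, 3175200], [0, 0, 0, 0, 0, 0, 0], [114], [0, 0, 0, 0, 0, 0, 0, 0, 0, 0, 0, 0, 0, 0], [157], [114, 0], [157]⟩,
   ⟨[3613, 5040], [0, 0], [40], [0, 0, 0, 0], [138], [40], [138]⟩,
   ⟨[2408, 3360], [0, 1], [38], [0, 0, 1, 1], [134], [38, 1, 0], [134]⟩,
   ⟨[1043290, 2912112, 2032128], [0, 0, 0, 2, 2], [34, 39], [0, 0, 0, 0, 0, 0, 2, 2, 2, 2], [113, 140], [39, 34, 0], [140, 113]⟩,
   ⟨[3603, 5040], [0, 0], [14], [0, 0, 0, 0], [66], [14], [66]⟩,
   ⟨[12994221, 36335880, 25401600], [0, 0, 0, 0], [22, 16], [0, 0, 0, 0, 0, 0, 0, 0], [188], [16, 22], [188]⟩,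
   ⟨[84847267557955, 473926971580020, 992695966365600, 924141705984000, 322620641280000], [0, 0, 0, 0, 0, 0, 0, 0, 0], [34, 30, 116], [0, 0, 0, 0, 0, 0, 0, 0, 0, 0, 0, 0, 0, 0, 0, 0, 0, 0], [192, 193], [116, 30, 34, 0], [193, 192]⟩,
   ⟨[13041125, 36401400, 25401600], [0, 0, 0, 0], [39, 34], [0, 0, 0, 0, 0, 0, 0, 0], [194], [34, 39], [194]⟩,
   ⟨[903, 1260], [0, 0, 0, 0], [38], [0, 0, 0, 0, 0, 0, 0, 0], [142], [38], [142]⟩,
   ⟨[26002866, 72691920, 50803200], [0, 0, 0], [21, 22], [0, 0, 0, 0, 0, 0], [83, 91], [22, 21, 0], [91, 83]⟩,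
   ⟨[2890810, 8079120, 5644800], [0, 0, 0, 1, 1], [22, 27], [0, 0, 0, 0, 0, 0, 1, 1, 1, 1], [84, 108], [27, 22, 0], [108, 84]⟩,
   ⟨[6510636, 18186840, 12700800], [0, 0, 0, 0, 0], [28, 32], [0, 0, 0, 0, 0, 0, 0, 0, 0, 0], [101, 120], [32, 28, 0], [120, 101]⟩,
   ⟨[2120770, 5931360, 4147200], [0, 3, 3], [15, 20], [0, 0, 3, 3, 3, 3], [57, 88], [20, 15, 0], [88, 57]⟩,
   ⟨[37563831233631, 210022016222760, 440342926934400, 410331350016000, 143386951680000], [0, 0, 0, 0, 0, 0, 0, 1, 1], [26, 19, 22, 21], [0, 0, 0, 0, 0, 0, 0, 0, 0, 0, 0, 0, 0, 0, 1, 1, 1, 1], [176, 177], [21, 22, 19, 26, 0], [177, 176]⟩,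
   ⟨[462241, 1292256, 903168], [0, 1, 1, 2, 2], [17, 27], [0, 0, 1, 1, 1, 1, 2, 2, 2, 2], [55, 119], [27, 17, 0], [119, 55]⟩,
   ⟨[1600, 2240], [1, 1], [7], [1, 1, 1, 1], [50], [7], [50]⟩,
   ⟨[7213, 10080], [0], [24], [0, 0], [96], [24, 0], [96]⟩,
   ⟨[25952410, 72621360, 50803200], [0, 0, 0], [11, 13], [0, 0, 0, 0, 0, 0], [54, 60], [13, 11, 0], [60, 54]⟩,
   ⟨[4805, 6720], [1], [17], [1, 1], [73], [17, 1], [73]⟩,
   ⟨[1622701, 4539780, 3175200], [0, 0, 0, 0, 0, 0, 0], [11, 18], [0, 0, 0, 0, 0, 0, 0, 0, 0, 0, 0, 0, 0, 0], [49, 82], [18, 11, 0], [82, 49]⟩,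
   ⟨[529935, 1482480, 1036800], [0, 0, 0, 3, 3], [10, 20], [0, 0, 0, 0, 0, 0, 3, 3, 3, 3], [46, 98], [20, 10, 0], [98, 46]⟩,
   ⟨[7199, 10080], [0], [6], [0, 0], [44], [6, 0], [44]⟩,
   ⟨[7226, 10080], [0], [40], [0, 0], [137], [40, 0], [137]⟩,
   ⟨[1733522, 4846128, 3386880], [0, 0, 0, 1, 2], [34, 10], [0, 0, 0, 0, 0, 0, 1, 1, 2, 2], [158], [10, 34, 2, 1, 0], [158]⟩,
   ⟨[1799, 2520], [0, 0, 0], [4], [0, 0, 0, 0, 0, 0], [43], [4, 0], [43]⟩,
   ⟨[8638800, 24190320, 16934400], [0, 0, 0, 1], [7, 6], [0, 0, 0, 0, 0, 0, 1, 1], [171], [6, 7, 1, 0], [171]⟩,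
   ⟨[1443002, 4036200, 2822400], [0, 0, 0, 0, 1, 1], [69], [0, 0, 0, 0, 0, 0, 0, 0, 1, 1, 1, 1], [153], [69], [153]⟩]

/-- All rows. -/
def rows : List Row := rows0 ++ rows1 ++ rows2 ++ rows3 ++ rows4 ++ rows5 ++ rows6 ++ rows7

/-- Clauses with hints. -/
def lem0 : List (List (ℕ × Bool) × List (Bool × ℕ)) :=
  [([(14, false), (10, false), (48, false)], [(false, 128), (false, 156)]), ([(17, false), (16,
   false), (64, false)], [(false, 81), (false, 224)]), ([(19, false), (12, false), (50, false)],
   [(false, 32), (false, 170)]), ([(27, false), (17, false), (55, false)], [(false, 148), (false,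
   241)]), ([(20, false), (10, false), (46, false)], [(false, 103), (false, 247)]), ([(28, false),
   (26, false), (94, false)], [(false, 194), (false, 203)]), ([(30, true), (28, true), (103,
   false)], [(false, 130), (false, 202)]), ([(110, false), (30, false), (96, false), (97, false),
   (20, true)], [(false, 31), (false, 217), (false, 197)]), ([(32, false), (28, false), (101,
   false)], [(false, 47), (false, 238)]), ([(32, true), (22, true), (77, false)], [(false, 126),
   (false, 38)]), ([(58, false), (18, true), (164, false), (9, false)], [(false, 53), (false,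
   219)]), ([(96, false), (30, false), (97, false), (20, true)], [(false, 31), (true, 3), (false,
   217), (false, 197)]), ([(24, false), (90, false), (23, false)], [(false, 147), (false, 4)]),
   ([(22, false), (27, true), (20, true)], [(false, 168), (false, 213), (false, 50), (false, 27),
   (false, 157), (false, 20), (false, 12), (true, 0), (false, 243), (false, 106), (true, 1), (true,
   7), (true, 6)]), ([(32, false), (87, false), (25, false)], [(false, 136), (false, 30)]), ([(38,
   false), (89, false), (28, false)], [(false, 34), (false, 235)])]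

/-- Clauses with hints. -/
def lem1 : List (List (ℕ × Bool) × List (Bool × ℕ)) :=
  [([(38, true), (35, true), (118, false)], [(false, 37), (false, 54)]), ([(18, false), (28,
   false), (30, true), (26, false), (32, true), (22, true)], [(false, 192), (false, 60), (true, 7),
   (false, 110), (false, 83), (false, 222), (false, 66), (false, 92), (false, 70), (false, 57),
   (false, 233), (false, 67), (false, 80), (false, 152), (true, 1), (true, 0)]), ([(18, true), (16,
   true), (190, true), (25, false), (15, false), (20, true)], [(false, 140), (false, 69), (false,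
   205), (false, 243), (false, 107), (false, 96)]), ([(18, false), (19, false), (20, true), (27,
   true)], [(true, 5), (false, 198), (false, 173), (false, 236), (false, 214), (false, 117),
   (false, 97), (false, 32), (true, 4), (false, 180), (false, 160), (false, 27), (false, 52),
   (false, 240), (false, 186), (false, 119), (true, 12), (true, 1)]), ([(19, false), (15, false),
   (20, true), (27, true)], [(false, 214), (true, 6), (false, 117), (false, 97), (false, 173),
   (false, 40), (false, 32), (false, 73), (true, 5), (true, 10), (false, 110), (false, 14), (true,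
   0), (true, 1), (false, 166), (false, 215)]), ([(18, true), (19, true), (21, false), (22, true)],
   [(false, 89), (false, 78), (false, 25), (false, 153), (false, 51), (false, 232)]), ([(34,
   false), (32, false), (110, false)], [(false, 63), (false, 8)]), ([(20, true), (27, true), (57,
   false), (7, false), (4, false)], [(false, 214), (false, 27), (false, 173), (false, 62), (false,
   239), (true, 9), (false, 198), (false, 117), (false, 151), (false, 236), (false, 97), (false,
   160), (true, 2), (true, 1), (false, 66), (false, 159), (false, 52), (false, 99), (false, 240),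
   (false, 106), (false, 96), (false, 107), (false, 131), (false, 58), (false, 76), (false, 113),
   (false, 24), (false, 138), (false, 200), (false, 194), (true, 7), (false, 101), (false, 59),
   (false, 111), (false, 139), (true, 0)]), ([(18, false), (14, false), (58, false)], [(false,
   159), (false, 58)]), ([(28, false), (81, false), (29, false), (20, false)], [(false, 194),
   (false, 112), (false, 197), (false, 174), (false, 144)]), ([(32, true), (22, true), (11, false),
   (20, false), (104, false), (10, true)], [(false, 76), (false, 212), (true, 16), (false, 189),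
   (false, 110), (false, 231), (false, 100), (false, 181), (true, 1), (false, 3), (true, 0),
   (false, 137), (false, 94)]), ([(28, true), (82, false), (22, true)], [(false, 137), (false,
   94)]), ([(30, true), (38, true), (28, false), (34, false), (116, false)], [(false, 57), (false,
   222), (false, 192), (false, 233), (true, 11), (false, 67), (false, 80), (false, 152)]), ([(28,
   false), (34, false), (29, false), (116, false), (82, false), (22, false)], [(false, 112),
   (false, 94), (false, 227), (false, 158), (false, 164), (true, 0), (false, 174), (false, 144)]),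
   ([(26, false), (22, false), (85, false)], [(false, 65), (false, 183)]), ([(32, true), (28,
   false), (18, true), (22, false), (13, true), (27, true), (10, true)], [(false, 191), (false, 3),
   (false, 214), (false, 83), (false, 212), (false, 19), (false, 189), (false, 250), (true, 1)])]

/-- Clauses with hints. -/
def lem2 : List (List (ℕ × Bool) × List (Bool × ℕ)) :=
  [([(17, true), (14, true), (59, false)], [(false, 245), (false, 125)]), ([(28, true), (100,
   false), (27, true)], [(false, 46), (false, 88)]), ([(28, false), (18, false), (22, true), (7,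
   false), (4, false)], [(false, 99), (false, 66), (false, 151), (false, 194), (true, 18), (false,
   101), (false, 59), (false, 111), (false, 139), (true, 11)]), ([(61, false), (145, false), (22,
   true), (7, false)], [(false, 24), (false, 138)]), ([(20, true), (18, true), (22, true), (17,
   true), (27, false), (57, false), (50, false)], [(false, 3), (true, 8), (false, 52), (false,
   198), (false, 173), (false, 62), (false, 239), (false, 40), (false, 236), (false, 160), (true,
   14), (false, 240), (true, 33), (false, 178), (false, 73), (false, 176), (false, 69), (true, 3),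
   (false, 243), (false, 49), (false, 106), (false, 124), (false, 155), (false, 93), (true, 17),
   (false, 127), (false, 192), (false, 115)]), ([(34, false), (92, false), (27, false)], [(false,
   102), (false, 21)]), ([(38, false), (30, false), (98, false)], [(false, 179), (false, 167)]),
   ([(32, true), (11, false), (20, false), (110, false), (22, true), (10, true)], [(false, 103),
   (false, 151), (true, 29), (false, 110), (false, 231), (false, 100), (false, 181), (false, 197),
   (true, 0), (false, 101), (false, 111)]), ([(19, false), (20, false), (110, false), (22, true),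
   (27, false), (10, true), (7, false)], [(false, 7), (false, 175), (false, 15), (false, 48),
   (false, 209), (false, 244), (true, 0), (false, 103), (false, 72), (false, 105), (false, 120),
   (true, 36), (false, 242), (true, 37), (false, 184), (false, 176), (false, 149), (true, 7),
   (false, 142), (false, 231), (false, 100), (false, 204), (false, 181), (false, 133), (false,
   197), (false, 179), (false, 167)]), ([(18, false), (19, true), (22, false), (75, false)],
   [(false, 20), (false, 157), (false, 159), (false, 64), (false, 173), (false, 40), (false, 73),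
   (false, 69), (true, 28), (false, 195), (false, 165)]), ([(20, true), (15, true), (57, false)],
   [(false, 62), (false, 239)]), ([(20, true), (22, true), (10, true), (7, false), (4, false)],
   [(false, 29), (false, 242), (false, 225), (false, 120), (true, 19), (true, 39), (true, 6),
   (true, 8), (false, 200), (true, 7), (false, 113), (false, 76), (true, 18), (false, 110), (false,
   156), (true, 10), (true, 33), (false, 176), (false, 75), (true, 40), (false, 208), (false,
   10)]), ([(27, true), (32, false), (28, true), (18, false), (22, true)], [(false, 117), (false,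
   27), (false, 214), (false, 52), (true, 10), (true, 37), (false, 97), (false, 79), (true, 29),
   (false, 186), (false, 32), (false, 119), (false, 180), (false, 160), (false, 240)]), ([(18,
   false), (22, true), (10, true), (7, false), (4, false)], [(false, 7), (true, 1), (false, 175),
   (false, 15), (false, 48), (false, 209), (false, 244), (false, 76), (false, 242), (false, 225),
   (false, 120), (true, 10), (true, 20), (false, 110), (false, 156), (true, 35), (false, 75),
   (true, 0), (true, 41), (false, 208), (true, 12), (false, 10), (false, 176), (true, 42)]), ([(27,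
   true), (32, false), (28, false), (20, false), (22, true)], [(true, 37), (false, 65), (false,
   117), (false, 27), (false, 214), (false, 106), (false, 97), (false, 243), (true, 31), (false,
   85), (false, 32), (false, 226), (false, 154)]), ([(22, true), (10, true), (7, false), (4,
   false)], [(false, 48), (false, 7), (false, 225), (true, 3), (false, 175), (false, 15), (false,
   209), (false, 244), (true, 1), (false, 3), (true, 19), (false, 194), (true, 7), (false, 75),
   (true, 38), (false, 65), (true, 0), (false, 208), (true, 6), (false, 186), (false, 10), (true,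
   25), (false, 156), (false, 180), (false, 231), (false, 100), (false, 119), (false, 181), (false,
   197)])]

/-- Clauses with hints. -/
def lem3 : List (List (ℕ × Bool) × List (Bool × ℕ)) :=
  [([(18, false), (22, false), (55, false)], [(false, 157), (false, 159), (false, 64), (true, 34),
   (false, 72), (true, 44), (false, 237), (false, 71), (false, 1), (true, 6)]), ([(27, true), (10,
   true), (7, false), (4, false)], [(true, 1), (false, 120), (true, 0), (false, 99), (false, 29),
   (false, 7), (true, 25), (false, 175), (false, 104), (false, 15), (true, 18), (false, 79), (true,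
   15), (false, 194), (true, 17), (true, 26), (false, 75), (false, 146), (false, 139), (false,
   171), (false, 59), (false, 229), (false, 135), (false, 23), (false, 0), (false, 228), (false,
   143), (false, 223), (false, 36), (false, 86)]), ([(26, true), (27, true), (18, false), (22,
   true), (7, true), (4, false)], [(false, 117), (false, 214), (false, 97), (false, 213), (false,
   27), (false, 99), (false, 66), (false, 151), (false, 79), (false, 106), (true, 16), (true, 34),
   (false, 101), (false, 59), (false, 111), (false, 139), (false, 82), (false, 187), (false, 146),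
   (false, 161), (false, 45), (false, 174), (false, 192), (false, 33), (true, 33), (false, 177)]),
   ([(20, true), (26, false), (27, true), (18, false), (22, true)], [(false, 52), (false, 198),
   (false, 173), (true, 31), (false, 236), (false, 160), (false, 240)]), ([(32, true), (38, true),
   (102, false)], [(false, 111), (false, 101)]), ([(28, false), (20, false), (27, true), (89,
   false), (22, true)], [(false, 151), (true, 6), (true, 37), (true, 0)]), ([(27, true), (18,
   false), (22, true), (7, true), (4, false)], [(false, 66), (false, 151), (false, 27), (true, 3),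
   (true, 2), (false, 103), (true, 0), (true, 9), (true, 47), (true, 1), (true, 15)]), ([(13,
   true), (54, false), (11, true)], [(false, 209), (false, 244)]), ([(19, false), (28, true), (20,
   true), (27, false), (18, false), (22, true)], [(false, 173), (false, 40), (false, 154), (false,
   73), (false, 69), (false, 85), (false, 226)]), ([(39, false), (34, false), (113, false)],
   [(false, 230), (false, 134)]), ([(34, false), (36, true), (38, false), (113, false)], [(false,
   9), (false, 8), (false, 196), (false, 36), (false, 43), (false, 11), (false, 234), (true, 0)]),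
   ([(32, true), (20, true), (27, false), (18, false), (22, true)], [(false, 198), (false, 173),
   (false, 236), (false, 72), (false, 105), (false, 121), (false, 66), (false, 151), (false, 83),
   (true, 6), (false, 180), (true, 43), (false, 46), (false, 91), (false, 172), (true, 2), (false,
   133), (false, 204), (true, 0), (false, 2), (false, 41), (false, 186), (false, 119)]), ([(32,
   false), (10, true), (18, false), (22, true), (7, true), (4, false)], [(false, 151), (false,
   145), (false, 211), (true, 35), (false, 76), (false, 48), (true, 4), (true, 5), (false, 191),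
   (false, 121), (false, 99), (false, 75), (false, 19), (false, 250), (false, 139), (false, 59),
   (false, 229), (true, 1), (false, 23)]), ([(10, true), (18, false), (22, true), (7, true), (4,
   false)], [(true, 6), (false, 121), (false, 151), (false, 145), (false, 211), (true, 36), (false,
   76), (false, 48), (true, 5), (false, 56), (true, 0), (false, 220), (true, 1)]), ([(18, false),
   (22, true), (7, true), (4, false)], [(false, 151), (false, 145), (false, 211), (false, 128),
   (false, 253), (true, 7), (false, 182), (true, 0), (false, 123)]), ([(20, true), (27, true), (18,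
   true), (14, false), (22, true)], [(false, 198), (false, 173), (false, 236), (true, 41), (false,
   1), (true, 42), (false, 116), (true, 20), (false, 26), (false, 29)])]

/-- Clauses with hints. -/
def lem4 : List (List (ℕ × Bool) × List (Bool × ℕ)) :=
  [([(27, true), (11, false), (18, true), (14, false), (22, true), (46, false)], [(false, 3),
   (true, 36), (false, 214), (true, 0), (true, 59), (true, 37), (true, 17)]), ([(69, false), (10,
   true), (152, false), (22, false)], [(false, 253), (false, 123)]), ([(114, false), (38, true),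
   (34, true)], [(false, 114), (false, 199)]), ([(32, true), (14, true), (18, false), (22, false)],
   [(false, 157), (false, 159), (false, 64), (true, 53), (false, 72), (false, 237), (false, 1),
   (false, 89), (false, 78), (false, 218), (true, 25), (false, 71), (false, 5), (false, 166),
   (false, 232), (false, 153), (false, 173), (false, 236), (false, 207), (false, 40), (false, 73),
   (false, 69), (false, 221), (false, 6), (false, 186), (false, 60), (false, 105), (false, 83),
   (false, 180), (false, 92), (false, 222), (false, 119), (false, 172), (false, 70), (false, 233),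
   (false, 2), (false, 41), (false, 67), (false, 204), (false, 137), (false, 133), (true, 0)]),
   ([(32, false), (27, false), (97, false)], [(false, 75), (false, 208)]), ([(82, false), (52,
   false), (20, true), (53, false), (4, false)], [(false, 190), (false, 163), (false, 39)]), ([(18,
   false), (22, false), (7, true), (4, false)], [(false, 12), (false, 157), (false, 145), (false,
   190), (false, 218), (false, 159), (false, 64), (false, 173), (true, 56), (false, 40), (false,
   72), (false, 182), (false, 237), (false, 1), (false, 89), (true, 28), (false, 73), (false, 78),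
   (false, 71), (false, 69), (false, 5), (false, 166), (false, 232), (false, 153), (false, 236),
   (false, 207), (false, 221), (false, 6), (false, 186), (true, 1), (false, 180), (true, 2),
   (false, 119), (false, 128), (true, 45), (true, 4), (false, 76), (false, 113), (false, 24),
   (false, 138), (false, 200), (false, 194), (false, 197), (false, 181), (true, 0), (false, 163),
   (false, 39)]), ([(20, true), (57, false), (27, false), (18, true), (14, false), (22, true)],
   [(false, 52), (false, 3), (true, 43), (false, 198), (false, 173), (false, 62), (true, 28),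
   (false, 40), (false, 236), (false, 160), (true, 49), (false, 178), (false, 73), (false, 240),
   (false, 69), (false, 243), (false, 49), (false, 106), (false, 124), (false, 155), (true, 52),
   (false, 93), (false, 127), (false, 192), (false, 115)]), ([(22, true), (7, true), (4, false)],
   [(false, 95), (false, 145), (false, 132), (false, 151), (false, 211), (true, 9), (false, 231),
   (false, 128), (false, 3), (false, 246), (false, 253), (true, 44), (false, 100), (true, 7),
   (false, 194), (false, 182), (false, 52), (false, 123), (false, 29), (true, 0), (true, 32),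
   (false, 181), (true, 63), (false, 197), (false, 65), (false, 186), (false, 119), (false, 180),
   (false, 160), (true, 50), (false, 240)]), ([(14, true), (8, false), (10, true), (18, true), (7,
   true)], [(false, 3), (false, 95), (false, 246), (false, 193), (false, 140), (false, 131),
   (false, 162), (false, 205), (false, 109)]), ([(27, true), (7, true), (4, false)], [(true, 1),
   (true, 3), (false, 3), (false, 95), (false, 246), (false, 76), (false, 99), (false, 132),
   (false, 214), (true, 60), (false, 103), (false, 104), (true, 69), (false, 68), (true, 43),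
   (false, 48), (true, 63), (false, 79), (false, 60), (false, 35), (true, 40), (false, 122),
   (false, 194), (true, 0), (false, 231), (false, 100), (false, 181), (false, 197), (true, 48),
   (true, 35), (false, 59), (false, 139), (false, 70), (false, 92), (false, 212), (false, 189)]),
   ([(20, true), (27, false), (18, true), (22, false)], [(false, 12), (true, 6), (false, 83),
   (false, 72), (false, 237), (false, 1), (false, 173), (false, 40), (false, 73), (false, 69),
   (false, 243), (false, 85), (true, 63), (false, 226), (false, 91), (false, 154), (false, 46)]),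
   ([(7, true), (4, false)], [(false, 132), (false, 95), (true, 3), (true, 5), (false, 3), (false,
   246), (false, 76), (true, 1), (false, 72), (false, 182), (false, 237), (false, 1), (false, 89),
   (false, 25), (false, 51), (false, 109), (true, 0), (true, 71), (false, 68), (false, 48), (false,
   193), (true, 10), (true, 65), (false, 128), (false, 35), (false, 162), (false, 122)]), ([(18,
   false), (22, true), (4, false)], [(true, 0), (false, 225), (true, 29), (true, 76), (false, 110),
   (true, 67), (false, 185), (false, 132), (true, 72), (false, 120), (true, 42), (true, 32), (true,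
   20), (true, 73), (false, 61), (false, 169)]), ([(96, false), (27, true), (26, true)], [(false,
   106), (false, 27)]), ([(22, true), (4, false)], [(true, 2), (false, 242), (false, 225), (false,
   120), (false, 132), (false, 198), (true, 31), (true, 78), (true, 74), (false, 110), (false,
   173), (true, 69), (false, 40), (false, 236), (true, 1), (false, 3), (true, 57), (true, 51),
   (true, 76), (false, 73), (true, 70), (false, 176), (false, 69), (false, 65), (true, 46), (false,
   243), (true, 75), (true, 0)])]

/-- Clauses with hints. -/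
def lem5 : List (List (ℕ × Bool) × List (Bool × ℕ)) :=
  [([(27, true), (4, false)], [(true, 0), (true, 3), (false, 132), (true, 66), (true, 30), (true,
   75)]), ([(4, false)], [(false, 132), (true, 4), (false, 120), (false, 7), (true, 1), (false,
   12), (true, 32), (false, 99), (true, 0), (false, 72), (false, 237), (true, 12), (true, 5),
   (true, 77), (false, 1), (false, 83), (false, 103), (false, 175), (true, 76), (false, 61), (true,
   43), (false, 15), (false, 48), (false, 169), (false, 139), (true, 25), (false, 185), (false,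
   59), (false, 231), (true, 42), (false, 100), (false, 91), (false, 181), (false, 46), (false,
   197), (false, 194)]), ([(43, true)], [(true, 0), (false, 251)]), ([(26, true), (89, false), (25,
   false), (27, true), (102, false)], [(false, 213), (false, 79), (true, 4), (true, 49), (false,
   194), (true, 67), (true, 30), (false, 82), (true, 60), (false, 187), (false, 146), (false, 161),
   (false, 45), (false, 174), (false, 192), (false, 33), (true, 66), (false, 177)]), ([(18, false),
   (27, true), (22, true)], [(false, 117), (false, 214), (false, 97), (false, 27), (false, 151),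
   (false, 66), (true, 0), (true, 32), (false, 103), (true, 30), (true, 39), (true, 77), (true,
   31), (true, 45)]), ([(20, true), (27, true), (22, true)], [(true, 0), (false, 117), (false,
   214), (false, 97), (false, 198), (false, 173), (true, 21), (false, 236), (false, 110), (true,
   63), (true, 75), (false, 32), (true, 70)]), ([(7, false), (27, true), (22, true)], [(true, 4),
   (true, 1), (false, 3), (true, 58), (true, 0), (true, 39), (true, 76), (false, 110), (false,
   200), (false, 194), (false, 225), (true, 50), (false, 113), (true, 46), (true, 85)]), ([(19,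
   true), (27, true), (22, true)], [(true, 2), (false, 3), (true, 59), (true, 1), (true, 40),
   (true, 77), (false, 110), (false, 89), (false, 25), (false, 178), (false, 154), (false, 51),
   (false, 124), (false, 49), (false, 85), (false, 226)]), ([(27, true), (22, true)], [(true, 3),
   (false, 3), (true, 60), (false, 194), (true, 2), (true, 41), (true, 78), (false, 110), (true,
   1), (false, 95), (false, 246), (true, 48), (false, 26), (true, 0), (false, 1), (false, 116)]),
   ([(14, true), (10, true), (7, false), (97, true), (22, true)], [(true, 0), (false, 120), (true,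
   85), (false, 242), (false, 225), (true, 56), (false, 156), (false, 176), (false, 10), (true,
   86)]), ([(38, false), (34, false), (121, false), (113, false)], [(false, 229), (true, 31),
   (false, 23)]), ([(10, true), (7, false), (32, false), (18, false), (22, true)], [(true, 9),
   (true, 2), (true, 22), (false, 75), (false, 191), (false, 121), (false, 48), (true, 1), (true,
   66), (false, 76), (false, 113), (true, 35), (true, 55), (false, 19), (false, 200), (false, 250),
   (false, 8), (true, 33), (false, 74), (true, 0), (false, 13), (false, 42), (false, 77), (false,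
   249), (false, 84)]), ([(7, false), (32, false), (18, false), (22, true)], [(true, 3), (false,
   120), (false, 225), (false, 242), (true, 88), (true, 0), (true, 91), (false, 185), (true, 59),
   (false, 176), (true, 89), (false, 61), (false, 169)]), ([(18, false), (20, true), (22, true)],
   [(true, 10), (true, 4), (false, 151), (true, 33), (true, 0), (false, 145), (false, 211), (true,
   68), (false, 76), (false, 113), (false, 28)]), ([(20, true), (22, true)], [(true, 5), (false,
   198), (false, 173), (false, 236), (false, 160), (true, 0), (false, 3), (false, 52), (true, 72),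
   (true, 66), (false, 1), (false, 240), (false, 65), (true, 85), (true, 84), (false, 110), (true,
   22), (false, 116), (false, 29), (false, 26)]), ([(7, false), (18, false), (22, true)], [(true,
   13), (false, 99), (true, 6), (true, 0), (false, 175), (true, 57), (false, 151), (true, 2),
   (false, 139), (true, 42), (false, 59)])]

/-- Clauses with hints. -/
def lem6 : List (List (ℕ × Bool) × List (Bool × ℕ)) :=
  [([(18, false), (22, true)], [(true, 13), (false, 151), (true, 0), (false, 145), (false, 211),
   (true, 71), (false, 76), (false, 113), (false, 28)]), ([(32, true), (7, false), (22, true)],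
   [(true, 15), (true, 0), (false, 3), (true, 69), (false, 200), (true, 61), (false, 113), (false,
   225), (false, 194), (true, 2), (true, 87), (true, 57), (false, 110), (true, 96)]), ([(14,
   false), (7, false), (22, true)], [(true, 16), (true, 9), (true, 1), (false, 3), (true, 70),
   (true, 0), (true, 89), (false, 65), (false, 186), (false, 200), (true, 62), (false, 113),
   (false, 225), (false, 194), (true, 3), (false, 231), (true, 97), (false, 100), (true, 57),
   (false, 181), (true, 76), (false, 197), (false, 180), (false, 119)]), ([(7, false), (22, true)],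
   [(true, 10), (false, 120), (false, 242), (true, 95), (true, 0), (false, 185), (true, 66),
   (false, 176), (true, 96), (false, 61), (false, 169)]), ([(22, true)], [(true, 18), (false, 151),
   (true, 11), (true, 5), (true, 3), (false, 3), (false, 52), (true, 72), (false, 163), (false,
   194), (true, 0), (false, 145), (false, 95), (false, 182), (false, 190), (false, 211), (false,
   246), (false, 39), (false, 128), (false, 253), (false, 123), (true, 60), (false, 181), (true,
   91), (false, 197), (false, 65), (false, 186), (false, 119), (false, 180), (false, 160), (true,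
   78), (false, 240)]), ([(94, true)], [(true, 0), (false, 157)]), ([(97, true)], [(true, 1),
   (false, 12)]), ([(169, true)], [(true, 0), (false, 31)]), ([(30, true), (25, false), (38, true),
   (124, false), (96, true)], [(false, 192), (false, 33), (true, 87), (false, 177)]), ([(30,
   false), (29, false), (105, false)], [(false, 174), (false, 144)]), ([(32, true), (7, false),
   (27, true)], [(true, 4), (true, 5), (true, 24), (true, 92), (false, 175), (false, 7), (false,
   15), (false, 242), (false, 225), (false, 104), (true, 75), (false, 79), (true, 72), (false,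
   112), (false, 64), (false, 159), (false, 191), (false, 99), (false, 140), (true, 27), (false,
   214), (false, 212), (false, 19), (true, 74), (false, 189), (false, 250), (true, 105), (false,
   146), (false, 139), (false, 185), (false, 131), (false, 59), (false, 205), (true, 0), (true, 1),
   (false, 96), (false, 107), (false, 210), (true, 104), (true, 73), (false, 176), (true, 103),
   (false, 61), (false, 169)]), ([(7, false), (27, true)], [(true, 5), (true, 6), (true, 25),
   (true, 93), (false, 104), (true, 76), (false, 79), (true, 73), (false, 194), (false, 64),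
   (false, 159), (false, 99), (false, 140), (true, 28), (false, 60), (false, 213), (false, 242),
   (true, 0), (false, 82), (true, 84), (false, 92), (false, 187), (false, 146), (false, 161),
   (false, 139), (false, 70), (false, 45), (false, 59), (false, 185), (false, 131), (false, 174),
   (false, 205), (true, 2), (false, 96), (false, 107), (false, 210), (true, 105), (true, 74),
   (false, 176), (true, 104), (false, 61), (false, 169)]), ([(36, true), (32, true), (27, true)],
   [(true, 6), (true, 7), (true, 94), (false, 64), (false, 159), (false, 3), (false, 83), (false,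
   104), (true, 77), (false, 79), (true, 74), (false, 214), (false, 212), (false, 189), (true, 78),
   (false, 146), (false, 87), (true, 29), (false, 243), (false, 150), (false, 108), (false, 55),
   (false, 129), (false, 118), (false, 36), (false, 86)]), ([(19, true), (148, false), (10, false),
   (32, true)], [(true, 8), (false, 184), (false, 149)]), ([(6, false), (170, false), (5, false),
   (7, true), (9, true)], [(false, 18), (false, 252)]), ([(32, true), (27, true)], [(true, 9),
   (true, 29), (true, 8), (true, 10), (true, 97), (true, 3), (false, 68), (false, 64), (false,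
   159), (false, 3), (false, 95), (false, 246), (false, 76), (true, 100), (false, 163), (false,
   145), (false, 190), (false, 39), (false, 104), (true, 80), (false, 79), (true, 77), (false,
   140), (false, 214), (false, 212), (false, 189), (true, 85), (false, 181), (false, 26), (false,
   141), (false, 216), (false, 17), (true, 2), (false, 142), (true, 1), (false, 1), (false, 10),
   (false, 16), (false, 116), (false, 22), (false, 131), (false, 205), (false, 90), (false, 188),
   (false, 44), (false, 248), (true, 0)])]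

/-- Clauses with hints. -/
def lem7 : List (List (ℕ × Bool) × List (Bool × ℕ)) :=
  [([(19, false), (27, true)], [(true, 10), (true, 30), (true, 9), (true, 11), (true, 98), (false,
   64), (false, 159), (false, 3), (false, 163), (true, 4), (false, 145), (false, 190), (false, 39),
   (false, 104), (true, 81), (false, 79), (true, 78), (false, 194), (true, 0), (false, 82), (true,
   89), (false, 187), (false, 213), (false, 161), (false, 45), (false, 174), (false, 197), (false,
   181), (false, 26), (false, 17), (false, 216), (false, 141), (false, 140), (false, 60), (false,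
   92), (false, 70), (false, 131), (false, 205), (false, 68), (false, 95), (false, 246), (false,
   76), (true, 101), (false, 10), (false, 16), (false, 90), (false, 22), (false, 188), (true, 1),
   (false, 44), (false, 248)]), ([(27, true)], [(true, 11), (true, 12), (false, 213), (true, 99),
   (false, 104), (false, 64), (true, 82), (false, 159), (false, 79), (false, 60), (true, 34),
   (false, 140), (true, 79), (false, 194), (true, 1), (false, 82), (false, 75), (true, 90), (false,
   171), (false, 92), (false, 187), (false, 146), (false, 161), (false, 70), (false, 45), (false,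
   185), (false, 131), (false, 174), (false, 205), (true, 0), (false, 61), (false, 169), (true,
   111), (false, 210), (false, 107), (false, 96), (true, 8), (false, 229), (false, 135), (false,
   23), (false, 0), (false, 228), (false, 143), (false, 223), (false, 36), (false, 86)]), ([(108,
   true)], [(true, 0), (false, 72)]), ([(113, true)], [(true, 1), (false, 121)]), ([(84, false)],
   [(true, 2), (true, 15), (true, 1), (false, 237)]), ([(32, false)], [(true, 3), (true, 14),
   (true, 48)]), ([(155, true)], [(true, 3), (false, 105)]), ([(19, false)], [(true, 2), (false,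
   1)]), ([(116, true)], [(true, 2), (false, 83)]), ([(79, true)], [(true, 1), (false, 61)]),
   ([(78, true)], [(true, 2), (false, 89)]), ([(149, true)], [(true, 3), (true, 22), (false,
   184)]), ([(193, true)], [(true, 3), (false, 222)]), ([(7, false)], [(true, 3), (true, 5), (true,
   24), (true, 43), (true, 0), (true, 4), (true, 7), (true, 11), (false, 120), (false, 225),
   (false, 7), (true, 121), (true, 76), (false, 169), (false, 99), (true, 49), (false, 185),
   (false, 175), (false, 104), (false, 231), (true, 124), (true, 87), (false, 15), (true, 94),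
   (false, 48), (false, 139), (true, 69), (false, 59), (false, 100), (true, 58), (false, 181),
   (false, 137), (false, 194), (false, 197), (false, 172), (false, 233), (false, 2), (false, 67),
   (false, 41)]), ([(152, true)], [(true, 0), (true, 12), (false, 182)]), ([(11, true)], [(true,
   1), (true, 44), (false, 113), (false, 28)])]

/-- Clauses with hints. -/
def lem8 : List (List (ℕ × Bool) × List (Bool × ℕ)) :=
  [([(58, true)], [(true, 0), (false, 76)]), ([(18, false)], [(true, 28), (true, 11), (true, 0),
   (true, 61), (true, 104)]), ([(20, true)], [(true, 0), (true, 16), (true, 29), (true, 54)]),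
   ([(68, false)], [(true, 1), (true, 11), (true, 8), (false, 25)]), ([(92, true)], [(true, 1),
   (false, 175)]), ([(70, false)], [(true, 2), (true, 19), (true, 17), (false, 220)]), ([(164,
   true)], [(true, 3), (true, 8), (false, 68)]), ([(16, true)], [(true, 3), (false, 51)]), ([(34,
   false)], [(true, 3), (true, 22), (true, 98)]), ([(13, false)], [(true, 3), (false, 56)]), ([(9,
   false)], [(true, 3), (true, 8), (true, 9), (true, 127)]), ([(67, true)], [(true, 3), (false,
   166)]), ([(124, true)], [(true, 3), (false, 146)]), ([(196, true)], [(true, 3), (true, 11),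
   (false, 98)]), ([(14, false)], [(true, 15), (true, 2), (true, 18), (true, 24), (true, 16),
   (true, 27), (true, 23), (true, 41), (true, 22), (true, 17), (true, 5), (true, 21), (true, 38),
   (true, 39), (true, 1), (true, 11), (true, 6), (true, 0), (false, 128), (false, 14), (true, 76),
   (false, 215), (false, 149), (false, 142), (false, 204), (false, 133), (true, 75), (false, 137),
   (false, 194), (false, 67), (false, 233), (false, 197), (false, 217), (true, 37), (false, 96),
   (false, 107), (false, 206), (false, 201)]), ([(65, true)], [(true, 0), (false, 185)])]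

/-- Clauses with hints. -/
def lem9 : List (List (ℕ × Bool) × List (Bool × ℕ)) :=
  [([(63, true)], [(true, 1), (false, 131)]), ([(17, true)], [(true, 1), (true, 25), (true, 23),
   (false, 169)]), ([(64, false)], [(true, 0), (true, 10), (true, 144)]), ([(15, false)], [(true,
   0), (false, 210)]), ([(80, false)], [(true, 0), (true, 3), (true, 17), (false, 107)]), ([(10,
   true)], [(true, 23), (true, 19), (true, 6), (true, 10), (false, 48), (true, 75), (false, 35),
   (false, 122)]), ([(148, false)], [(true, 0), (true, 32), (true, 30), (true, 49), (true, 26),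
   (false, 149)]), ([(36, false)], [(true, 0), (true, 25), (false, 142)]), ([(154, false)], [(true,
   0), (true, 51), (true, 33), (true, 37), (false, 204)]), ([(38, false)], [(true, 0), (true, 33),
   (false, 133)]), ([(114, false)], [(true, 0), (true, 17), (true, 87)]), ([(28, true)], [(true,
   0), (false, 137)]), ([(110, true)], [(true, 0), (false, 194)]), ([(192, true)], [(true, 1),
   (true, 5), (false, 67)]), ([(30, false)], [(true, 0), (true, 37), (true, 21), (true, 33),
   (false, 233)]), ([(81, false)], [(true, 0), (true, 28), (true, 2), (false, 197)])]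

/-- Clauses with hints. -/
def lem10 : List (List (ℕ × Bool) × List (Bool × ℕ)) :=
  [([(96, false)], [(true, 0), (true, 57), (true, 56), (true, 3), (false, 217)]), ([(25, false)],
   [(true, 0), (true, 7), (true, 20), (true, 2), (true, 56)]), ([], [(true, 0), (true, 1), (true,
   31), (true, 13), (false, 96)])]

/-- All clauses. -/
def lem : List (List (ℕ × Bool) × List (Bool × ℕ)) :=
  lem0 ++ lem1 ++ lem2 ++ lem3 ++ lem4 ++ lem5 ++ lem6 ++ lem7 ++ lem8 ++ lem9 ++ lem10

end Pool.Agent.SievePar.Core
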